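import Mathlib
import Pool.Agent.Helper19.VS.Basic

set_option autoImplicit false

/-!
# Planes and three-dimensional subsystems through Veblen points
-/

namespace Pool.Agent.Helper19.V3

open Finset Pool.Agent.V11100.VB Pool.Agent.Helper19.VS

variable {V : Type} [DecidableEq V] {B : Finset (Finset V)} {q : ℕ}

/-- a subsystem which is a projective plane of order `q` -/
structure Pla (B : Finset (Finset V)) (q : ℕ) (S : Finset V) : Prop where
  card : S.card = (q + 1) * q + 1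
  cl : ∀ x ∈ S, ∀ y ∈ S, x ≠ y → bl B x y ⊆ S

/-- a subsystem of the size of a three-dimensional projective space of order `q` -/
structure Spc (B : Finset (Finset V)) (q : ℕ) (S : Finset V) : Prop where
  card : S.card = ((q + 1) * q + 1) * q + 1
  cl : ∀ x ∈ S, ∀ y ∈ S, x ≠ y → bl B x y ⊆ S

section
variable (H : LS B q)
include H

theorem Pla.eq {S : Finset V} (P : Pla B q S) {x : V} (hx : x ∈ S) {g : Finset V} (hg : g ∈ B)
    (hgS : g ⊆ S) (hxg : x ∉ g) : pl B x g = S := by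
  refine eq_of_subset_of_card_le ?_ (by rw [P.card, H.card_pl hg hxg])
  intro y hy
  unfold pl at hy
  rw [mem_biUnion] at hy
  obtain ⟨z, hz, hyz⟩ := hy
  exact P.cl x hx z (hgS hz) (fun e => hxg (e ▸ hz)) hyz

theorem Pla.meet {S : Finset V} (P : Pla B q S) {g h : Finset V} (hg : g ∈ B) (hh : h ∈ B)
    (hgS : g ⊆ S) (hhS : h ⊆ S) : ∃ w ∈ g, w ∈ h := by
  by_cases e : h ⊆ g
  · obtain ⟨y, hy, _⟩ := H.two_pts hh (Classical.choice ⟨(H.two_pts hh
      (Classical.choice (by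
        obtain ⟨b, hb⟩ : h.Nonempty := by
          rw [← card_pos, H.size h hh]; omega
        exact ⟨b⟩))).choose⟩)
    exact ⟨y, e hy, hy⟩
  · rw [not_subset] at e
    obtain ⟨x, hxh, hxg⟩ := e
    obtain ⟨y, hyh, hyx⟩ := H.two_pts hh x
    have h1 := P.eq H (hhS hxh) hg hgS hxg
    have h2 : y ∈ pl B x g := by rw [h1]; exact hhS hyh
    obtain ⟨w, hw, hw2⟩ := (H.mem_pl hxg hyx).1 h2
    refine ⟨w, hw, ?_⟩
    rw [← H.bl_eq (Ne.symm hyx) hh hxh hyh]
    exact hw2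

theorem Pla.uniq {S S' : Finset V} (P : Pla B q S) (P' : Pla B q S') {x : V} (hx : x ∈ S)
    (hx' : x ∈ S') {g : Finset V} (hg : g ∈ B) (hgS : g ⊆ S) (hgS' : g ⊆ S') (hxg : x ∉ g) :
    S = S' := by
  rw [← P.eq H hx hg hgS hxg, ← P'.eq H hx' hg hgS' hxg]

theorem pla_pl {p : V} (hp : Veblen B p) {L : Finset V} (hL : L ∈ B) (hpL : p ∉ L) :
    Pla B q (pl B p L) := by
  refine ⟨H.card_pl hL hpL, ?_⟩
  intro x hx y hy hxy
  exact H.closed hp hL hpL hx hy (H.bB hxy) (H.b1 hxy) (H.b2 hxy) hxy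

/-- in a subsystem not containing `p`, a block through `p` has at most one point -/
theorem one_pt {A : Finset V} (hA : ∀ x ∈ A, ∀ y ∈ A, x ≠ y → bl B x y ⊆ A) {p x y : V}
    {g : Finset V} (hg : g ∈ B) (hpA : p ∉ A) (hpg : p ∈ g) (hx : x ∈ A) (hy : y ∈ A)
    (hxg : x ∈ g) (hyg : y ∈ g) : x = y := by
  by_contra hne
  apply hpA
  apply hA x hx y hy hne
  rw [H.bl_eq hne hg hxg hyg]
  exact hpg

theorem card_cone {A : Finset V} (hA : ∀ x ∈ A, ∀ y ∈ A, x ≠ y → bl B x y ⊆ A) {p : V}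
    (hpA : p ∉ A) (hne : A.Nonempty) : (pl B p A).card = A.card * q + 1 := by
  have h : pl B p A = insert p (A.biUnion fun w => (bl B p w).erase p) := by
    ext x
    by_cases hx : x = p
    · subst hx
      obtain ⟨y, hy⟩ := hne
      have hxy : x ≠ y := fun e => hpA (e ▸ hy)
      simp only [mem_insert, true_or, iff_true]
      unfold pl
      rw [mem_biUnion]
      exact ⟨y, hy, H.b1 hxy⟩
    · unfold pl
      simp [hx]
  rw [h, card_insert_of_notMem (by simp), card_biUnion]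
  · rw [sum_congr rfl (fun w hw => by
      have hpw : p ≠ w := fun e => hpA (e ▸ hw)
      rw [card_erase_of_mem (H.b1 hpw), H.size _ (H.bB hpw), Nat.add_sub_cancel]), sum_const,
      smul_eq_mul]
  · intro w hw w' hw' hne
    rw [Function.onFun, disjoint_left]
    intro x hx hx'
    rw [mem_erase] at hx hx'
    have h1 : p ≠ w := fun e => hpA (e ▸ hw)
    have h2 : p ≠ w' := fun e => hpA (e ▸ hw')
    have e1 : bl B p w = bl B p w' := H.un hx.1 (H.bB h1) (H.bB h2) hx.2 (H.b1 h1) hx'.2 (H.b1 h2)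
    exact hne (one_pt H hA (H.bB h1) hpA (H.b1 h1) hw hw' (H.b2 h1) (e1 ▸ H.b2 h2))

theorem Pla.ne {S : Finset V} (P : Pla B q S) : S.Nonempty := by
  rw [← card_pos, P.card]; omega

theorem spc_cone {p : V} (hp : Veblen B p) {A : Finset V} (P : Pla B q A) (hpA : p ∉ A) :
    Spc B q (pl B p A) := by
  refine ⟨by rw [card_cone H P.cl hpA (Pla.ne H P), P.card], ?_⟩
  have hmem : ∀ {x : V}, x ∈ pl B p A → x ≠ p → ∃ y ∈ A, y ∈ bl B p x := fun hx hxp =>
    (H.mem_pl hpA hxp).1 hx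
  have hsub : ∀ {y : V}, y ∈ A → bl B p y ⊆ pl B p A := by
    intro y hy z hz
    unfold pl
    rw [mem_biUnion]
    exact ⟨y, hy, hz⟩
  intro x hx x' hx' hxx
  by_cases hpx : p ∈ bl B x x'
  · by_cases hxp : x = p
    · have hx'p : x' ≠ p := fun e => hxx (hxp.trans e.symm)
      obtain ⟨y, hy, hyx⟩ := hmem hx' hx'p
      have hpy : p ≠ y := fun e => hpA (e ▸ hy)
      rw [hxp, ← bl_of H hx'p.symm (H.b1 hx'p.symm) hyx hpy]
      exact hsub hy
    · obtain ⟨y, hy, hyx⟩ := hmem hx hxp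
      have hpy : p ≠ y := fun e => hpA (e ▸ hy)
      have e1 : bl B p x = bl B x x' := bl_of H hxx hpx (H.b1 hxx) (Ne.symm hxp)
      rw [← e1, ← bl_of H (Ne.symm hxp) (H.b1 (Ne.symm hxp)) hyx hpy]
      exact hsub hy
  · have hxp : x ≠ p := fun e => hpx (e ▸ H.b1 hxx)
    have hx'p : x' ≠ p := fun e => hpx (e ▸ H.b2 hxx)
    obtain ⟨y, hy, hyx⟩ := hmem hx hxp
    obtain ⟨y', hy', hyx'⟩ := hmem hx' hx'p
    have hpy : p ≠ y := fun e => hpA (e ▸ hy)
    have hpy' : p ≠ y' := fun e => hpA (e ▸ hy')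
    have e1 : bl B p y = bl B p x := bl_of H hxp.symm (H.b1 hxp.symm) hyx hpy
    have e2 : bl B p y' = bl B p x' := bl_of H hx'p.symm (H.b1 hx'p.symm) hyx' hpy'
    have hyy : y ≠ y' := by
      rintro rfl
      apply hpx
      have e3 : bl B p x = bl B p x' := e1.symm.trans e2
      have e4 : x' ∈ bl B p x := e3 ▸ H.b2 hx'p.symm
      rw [bl_of H hxp.symm (H.b2 hxp.symm) e4 hxx]
      exact H.b1 hxp.symm
    have hg : bl B y y' ⊆ A := P.cl y hy y' hy' hyy
    have hpg : p ∉ bl B y y' := fun h => hpA (hg h)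
    have P2 := pla_pl H hp (H.bB hyy) hpg
    have hx2 : x ∈ pl B p (bl B y y') := (H.mem_pl hpg hxp).2 ⟨y, H.b1 hyy, hyx⟩
    have hx2' : x' ∈ pl B p (bl B y y') := (H.mem_pl hpg hx'p).2 ⟨y', H.b2 hyy, hyx'⟩
    intro z hz
    have hz2 := P2.cl x hx2 x' hx2' hxx hz
    unfold pl at hz2 ⊢
    rw [mem_biUnion] at hz2 ⊢
    obtain ⟨t, ht, hzt⟩ := hz2
    exact ⟨t, hg ht, hzt⟩

theorem Spc.cone {S : Finset V} (T : Spc B q S) {p : V} (hpS : p ∈ S) {A : Finset V}
    (P : Pla B q A) (hA : A ⊆ S) (hpA : p ∉ A) : pl B p A = S := by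
  refine eq_of_subset_of_card_le ?_ (by
    rw [T.card, card_cone H P.cl hpA (Pla.ne H P), P.card])
  intro y hy
  unfold pl at hy
  rw [mem_biUnion] at hy
  obtain ⟨z, hz, hyz⟩ := hy
  exact T.cl p hpS z (hA hz) (fun e => hpA (e ▸ hz)) hyz

/-- the projection from `p` to `A` -/
noncomputable def pj (B : Finset (Finset V)) (p : V) (A : Finset V) (x : V) : V :=
  mt A (bl B p x) x

theorem pj_spec {S : Finset V} (T : Spc B q S) {p : V} (hpS : p ∈ S) {A : Finset V}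
    (P : Pla B q A) (hA : A ⊆ S) (hpA : p ∉ A) {x : V} (hx : x ∈ S) (hxp : x ≠ p) :
    pj B p A x ∈ A ∧ pj B p A x ∈ bl B p x := by
  have h1 := T.cone H hpS P hA hpA
  rw [← h1] at hx
  exact mt_spec ((H.mem_pl hpA hxp).1 hx) x

theorem pj_uniq {S : Finset V} (T : Spc B q S) {p : V} (hpS : p ∈ S) {A : Finset V}
    (P : Pla B q A) (hA : A ⊆ S) (hpA : p ∉ A) {x : V} (hx : x ∈ S) (hxp : x ≠ p) {y : V}
    (hy : y ∈ A) (hyx : y ∈ bl B p x) : pj B p A x = y := by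
  have h1 := pj_spec H T hpS P hA hpA hx hxp
  exact one_pt H P.cl (H.bB hxp.symm) hpA (H.b1 hxp.symm) h1.1 hy h1.2 hyx

/-- the projection of collinear points of a plane -/
theorem pj_col {S : Finset V} (T : Spc B q S) {p : V} (hp : Veblen B p) (hpS : p ∈ S)
    {A C : Finset V} (PA : Pla B q A) (hA : A ⊆ S) (hpA : p ∉ A) (PC : Pla B q C) (hC : C ⊆ S)
    (hpC : p ∉ C) {x y z : V} (hx : x ∈ A) (hy : y ∈ A) (hxy : x ≠ y) (hz : z ∈ bl B x y) :
    pj B p C x ≠ pj B p C y ∧ pj B p C z ∈ bl B (pj B p C x) (pj B p C y) := by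
  have hg := PA.cl x hx y hy hxy
  have hzA := hg hz
  have hpg : p ∉ bl B x y := fun h => hpA (hg h)
  have Q := pla_pl H hp (H.bB hxy) hpg
  have npx : x ≠ p := fun e => hpA (e ▸ hx)
  have npy : y ≠ p := fun e => hpA (e ▸ hy)
  have npz : z ≠ p := fun e => hpA (e ▸ hzA)
  have sx := pj_spec H T hpS PC hC hpC (hA hx) npx
  have sy := pj_spec H T hpS PC hC hpC (hA hy) npy
  have sz := pj_spec H T hpS PC hC hpC (hA hzA) npz
  set x' := pj B p C x
  set y' := pj B p C y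
  set z' := pj B p C z
  have npx' : p ≠ x' := fun e => hpC (e ▸ sx.1)
  have npy' : p ≠ y' := fun e => hpC (e ▸ sy.1)
  have hQ : ∀ {t t' : V}, t ∈ bl B x y → t ≠ p → t' ∈ bl B p t → t' ∈ pl B p (bl B x y) := by
    intro t t' ht htp ht'
    have h1 : t ∈ pl B p (bl B x y) := H.L_sub hpg ht
    exact H.ray_sub hpg h1 htp ht'
  have qx := hQ (H.b1 hxy) npx sx.2
  have qy := hQ (H.b2 hxy) npy sy.2
  have qz := hQ hz npz sz.2
  have hne : x' ≠ y' := by
    intro e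
    have e1 : bl B p x' = bl B p x := bl_of H npx.symm (H.b1 npx.symm) sx.2 npx'
    have e2 : bl B p y' = bl B p y := bl_of H npy.symm (H.b1 npy.symm) sy.2 npy'
    rw [e, e2] at e1
    exact hxy (one_pt H PA.cl (H.bB npx.symm) hpA (H.b1 npx.symm) hx hy (H.b2 npx.symm)
      (e1 ▸ H.b2 npy.symm))
  refine ⟨hne, ?_⟩
  by_contra hcon
  have e : C = pl B p (bl B x y) := PC.uniq H Q sz.1 qz (H.bB hne)
    (PC.cl x' sx.1 y' sy.1 hne) (Q.cl x' qx y' qy hne) hcon
  apply hpC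
  rw [e]
  exact H.p_mem (H.bB hxy) hpg

end

end Pool.Agent.Helper19.V3
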