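import Mathlib
import Pool.Agent.Helper19.V3.Plane

set_option autoImplicit false

/-!
# A Steiner system with two Veblen points from a projective plane of arbitrary order
-/

namespace Pool.Agent.Helper19.V3

open Finset Pool.Agent.V11100.VB Pool.Agent.Helper19.VS

/-- rows `G`, columns `E`, symbols `I` -/
structure OA (G E I : Type) (γ : G → E → I) : Prop where
  ex : ∀ z z' : E, z ≠ z' → ∀ i i' : I, ∃ g, γ g z = i ∧ γ g z' = i'
  un : ∀ z z' : E, z ≠ z' → ∀ g g' : G, γ g z = γ g' z → γ g z' = γ g' z' → g = g'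
  agree : ∀ g g' : G, ∃ z, γ g z = γ g' z

inductive Blk (G E I : Type) : Type
  | inf : Blk G E I
  | ver (e z : E) (i : I) : Blk G E I
  | tra (g f : G) : Blk G E I

variable {G E I : Type}

/-- incidence -/
def Inc (γ : G → E → I) (e1 e2 : E) : Blk G E I → (E ⊕ (E × G)) → Prop
  | .inf, .inl _ => True
  | .inf, .inr _ => False
  | .ver _ z _, .inl t => t = z
  | .ver e z i, .inr t => t.1 = e ∧ γ t.2 z = i
  | .tra _ _, .inl _ => False
  | .tra g f, .inr t => γ t.2 e1 = γ g t.1 ∧ γ t.2 e2 = γ f t.1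

theorem inc_ex {γ : G → E → I} (O : OA G E I γ) {e1 e2 : E}
    (w w' : E ⊕ (E × G)) (hw : w ≠ w') : ∃ k, Inc γ e1 e2 k w ∧ Inc γ e1 e2 k w' := by
  rcases w with z | ⟨e, d⟩ <;> rcases w' with z' | ⟨e', d'⟩
  · exact ⟨.inf, trivial, trivial⟩
  · exact ⟨.ver e' z (γ d' z), rfl, rfl, rfl⟩
  · exact ⟨.ver e z' (γ d z'), ⟨rfl, rfl⟩, rfl⟩
  · by_cases he : e = e'
    · subst he
      obtain ⟨z, hz⟩ := O.agree d d'
      exact ⟨.ver e z (γ d z), ⟨rfl, rfl⟩, rfl, hz.symm⟩
    · obtain ⟨g, hg, hg'⟩ := O.ex e e' he (γ d e1) (γ d' e1)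
      obtain ⟨f, hf, hf'⟩ := O.ex e e' he (γ d e2) (γ d' e2)
      exact ⟨.tra g f, ⟨hg.symm, hf.symm⟩, hg'.symm, hf'.symm⟩

theorem inc_un {γ : G → E → I} (O : OA G E I γ) {e1 e2 : E} (h12 : e1 ≠ e2)
    {w w' : E ⊕ (E × G)} (hw : w ≠ w') {k k' : Blk G E I} (h1 : Inc γ e1 e2 k w)
    (h2 : Inc γ e1 e2 k w') (h3 : Inc γ e1 e2 k' w) (h4 : Inc γ e1 e2 k' w') : k = k' := by
  rcases k with _ | ⟨e, z, i⟩ | ⟨g, f⟩ <;> rcases k' with _ | ⟨e', z', i'⟩ | ⟨g', f'⟩ <;>
    rcases w with t | ⟨a, d⟩ <;> rcases w' with t' | ⟨a', d'⟩ <;>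
    simp only [Inc] at h1 h2 h3 h4
  · rfl
  · exact absurd (by rw [h3, h4]) hw
  · exact absurd (by rw [h1, h2]) hw
  · exact absurd (by rw [h1, h2]) hw
  · obtain ⟨r1, r2⟩ := h2
    obtain ⟨r3, r4⟩ := h4
    subst h1; subst h3; subst r1; subst r2; subst r3; subst r4; rfl
  · obtain ⟨r1, r2⟩ := h1
    obtain ⟨r3, r4⟩ := h3
    subst h2; subst h4; subst r1; subst r2; subst r3; subst r4; rfl
  · obtain ⟨r1, r2⟩ := h1
    obtain ⟨r3, r4⟩ := h2
    obtain ⟨r5, r6⟩ := h3
    obtain ⟨r7, r8⟩ := h4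
    subst r1; subst r3; subst r5; subst r2; subst r6
    by_cases hz : z = z'
    · subst hz; rfl
    · exact absurd (by rw [O.un z z' hz d d' r4.symm r8.symm]) hw
  · obtain ⟨r1, r2⟩ := h1
    obtain ⟨r3, r4⟩ := h2
    obtain ⟨r5, r6⟩ := h3
    obtain ⟨r7, r8⟩ := h4
    subst r1; subst r3
    exact absurd (by rw [O.un e1 e2 h12 d d' (r5.trans r7.symm) (r6.trans r8.symm)]) hw
  · obtain ⟨r1, r2⟩ := h3
    obtain ⟨r3, r4⟩ := h4
    obtain ⟨r5, r6⟩ := h1
    obtain ⟨r7, r8⟩ := h2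
    subst r1; subst r3
    exact absurd (by rw [O.un e1 e2 h12 d d' (r5.trans r7.symm) (r6.trans r8.symm)]) hw
  · obtain ⟨r1, r2⟩ := h1
    obtain ⟨r3, r4⟩ := h2
    obtain ⟨r5, r6⟩ := h3
    obtain ⟨r7, r8⟩ := h4
    by_cases ha : a = a'
    · subst ha
      exact absurd (by rw [O.un e1 e2 h12 d d' (r1.trans r3.symm) (r2.trans r4.symm)]) hw
    · rw [O.un a a' ha g g' (r1.symm.trans r5) (r3.symm.trans r7),
        O.un a a' ha f f' (r2.symm.trans r6) (r4.symm.trans r8)]

/-- two blocks of a vertical plane meet -/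
theorem ver_meet {γ : G → E → I} (O : OA G E I γ) {e1 e2 : E} (e z z' : E) (i i' : I) :
    ∃ w, Inc γ e1 e2 (.ver e z i) w ∧ Inc γ e1 e2 (.ver e z' i') w := by
  by_cases hz : z = z'
  · subst hz; exact ⟨.inl z, rfl, rfl⟩
  · obtain ⟨d, h1, h2⟩ := O.ex z z' hz i i'
    exact ⟨.inr (e, d), ⟨rfl, h1⟩, rfl, h2⟩

theorem inc_veblen {γ : G → E → I} (O : OA G E I γ) {e1 e2 : E} (h12 : e1 ≠ e2)
    {l m g h : Blk G E I} (hlm : l ≠ m) {a b c d : E ⊕ (E × G)}
    (pl : Inc γ e1 e2 l (.inl e1)) (pm : Inc γ e1 e2 m (.inl e1))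
    (al : Inc γ e1 e2 l a) (bl : Inc γ e1 e2 l b) (cm : Inc γ e1 e2 m c) (dm : Inc γ e1 e2 m d)
    (ap : a ≠ .inl e1) (bp : b ≠ .inl e1) (cp : c ≠ .inl e1) (dp : d ≠ .inl e1)
    (ag : Inc γ e1 e2 g a) (cg : Inc γ e1 e2 g c) (bh : Inc γ e1 e2 h b)
    (dh : Inc γ e1 e2 h d) : ∃ w, Inc γ e1 e2 g w ∧ Inc γ e1 e2 h w := by
  -- the case where everything is in one vertical plane
  have key : ∀ e z i e' z' i', g = .ver e z i → h = .ver e' z' i' → e = e' →
      ∃ w, Inc γ e1 e2 g w ∧ Inc γ e1 e2 h w := by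
    rintro e z i e' z' i' rfl rfl rfl
    exact ver_meet O e z z' i i'
  rcases l with _ | ⟨e, z, i⟩ | ⟨s, t⟩
  · rcases m with _ | ⟨e', z', i'⟩ | ⟨s, t⟩
    · exact absurd rfl hlm
    · rcases a with ta | ⟨ea, da⟩
      swap
      · exact absurd al id
      rcases b with tb | ⟨eb, db⟩
      swap
      · exact absurd bl id
      simp only [Inc] at pm
      rcases c with tc | ⟨ec, dc⟩
      · simp only [Inc] at cm
        exact absurd (by rw [cm, pm]) cp
      rcases d with td | ⟨ed, dd⟩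
      · simp only [Inc] at dm
        exact absurd (by rw [dm, pm]) dp
      simp only [Inc] at cm dm
      rcases g with _ | ⟨u, v, j⟩ | ⟨s, t⟩
      · exact absurd cg id
      · rcases h with _ | ⟨u', v', j'⟩ | ⟨s', t'⟩
        · exact absurd dh id
        · refine key _ _ _ _ _ _ rfl rfl ?_
          simp only [Inc] at cg dh
          rw [← cg.1, ← dh.1, cm.1, dm.1]
        · exact absurd bh id
      · exact absurd ag id
    · exact absurd pm id
  · rcases m with _ | ⟨e', z', i'⟩ | ⟨s, t⟩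
    · rcases c with tc | ⟨ec, dc⟩
      swap
      · exact absurd cm id
      rcases d with td | ⟨ed, dd⟩
      swap
      · exact absurd dm id
      simp only [Inc] at pl
      rcases a with ta | ⟨ea, da⟩
      · simp only [Inc] at al
        exact absurd (by rw [al, pl]) ap
      rcases b with tb | ⟨eb, db⟩
      · simp only [Inc] at bl
        exact absurd (by rw [bl, pl]) bp
      simp only [Inc] at al bl
      rcases g with _ | ⟨u, v, j⟩ | ⟨s, t⟩
      · exact absurd ag id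
      · rcases h with _ | ⟨u', v', j'⟩ | ⟨s', t'⟩
        · exact absurd bh id
        · refine key _ _ _ _ _ _ rfl rfl ?_
          simp only [Inc] at ag bh
          rw [← ag.1, ← bh.1, al.1, bl.1]
        · exact absurd dh id
      · exact absurd cg id
    · simp only [Inc] at pl pm
      rcases a with ta | ⟨ea, da⟩
      · simp only [Inc] at al
        exact absurd (by rw [al, pl]) ap
      rcases b with tb | ⟨eb, db⟩
      · simp only [Inc] at bl
        exact absurd (by rw [bl, pl]) bp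
      rcases c with tc | ⟨ec, dc⟩
      · simp only [Inc] at cm
        exact absurd (by rw [cm, pm]) cp
      rcases d with td | ⟨ed, dd⟩
      · simp only [Inc] at dm
        exact absurd (by rw [dm, pm]) dp
      simp only [Inc] at al bl cm dm
      by_cases he : e = e'
      · rcases g with _ | ⟨u, v, j⟩ | ⟨s, t⟩
        · exact absurd ag id
        · rcases h with _ | ⟨u', v', j'⟩ | ⟨s', t'⟩
          · exact absurd bh id
          · refine key _ _ _ _ _ _ rfl rfl ?_
            simp only [Inc] at ag bh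
            rw [← ag.1, ← bh.1, al.1, bl.1]
          · simp only [Inc] at bh dh
            exfalso
            have hii : i = i' := by
              rw [← bl.2, ← dm.2, ← pl, ← pm, bh.1, dh.1, bl.1, dm.1, he]
            exact hlm (by rw [he, hii, ← pl, ← pm])
        · simp only [Inc] at ag cg
          exfalso
          have hii : i = i' := by
            rw [← al.2, ← cm.2, ← pl, ← pm, ag.1, cg.1, al.1, cm.1, he]
          exact hlm (by rw [he, hii, ← pl, ← pm])
      · rcases g with _ | ⟨u, v, j⟩ | ⟨s, t⟩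
        · exact absurd ag id
        · simp only [Inc] at ag cg
          exact absurd (by rw [← al.1, ← cm.1, ag.1, cg.1]) he
        · rcases h with _ | ⟨u', v', j'⟩ | ⟨s', t'⟩
          · exact absurd bh id
          · simp only [Inc] at bh dh
            exact absurd (by rw [← bl.1, ← dm.1, bh.1, dh.1]) he
          · simp only [Inc] at ag cg bh dh
            have hs : s = s' := by
              apply O.un e e' he
              · rw [← al.1, ← ag.1, al.1, ← bl.1, ← bh.1, pl, al.2, bl.2]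
              · rw [← cm.1, ← cg.1, cm.1, ← dm.1, ← dh.1, pm, cm.2, dm.2]
            subst hs
            obtain ⟨z0, hz0⟩ := O.agree t t'
            obtain ⟨d0, h1, h2⟩ := O.ex e1 e2 h12 (γ s z0) (γ t z0)
            exact ⟨.inr (z0, d0), ⟨h1, h2⟩, h1, h2.trans hz0⟩
    · exact absurd pm id
  · exact absurd pl id

section
variable [Fintype G] [Fintype E] [Fintype I] [DecidableEq G] [DecidableEq E] [DecidableEq I]

open Classical in
/-- the blocks -/
noncomputable def sys (γ : G → E → I) (e1 e2 : E) : Finset (Finset (E ⊕ (E × G))) :=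
  univ.filter fun b => ∃ k, ∀ w, w ∈ b ↔ Inc γ e1 e2 k w

theorem mem_sys {γ : G → E → I} {e1 e2 : E} {b : Finset (E ⊕ (E × G))} :
    b ∈ sys γ e1 e2 ↔ ∃ k, ∀ w, w ∈ b ↔ Inc γ e1 e2 k w := by
  simp [sys]

theorem card_row {γ : G → E → I} (O : OA G E I γ) {z z' : E} (h : z ≠ z') (i : I) :
    (univ.filter fun d => γ d z = i).card = Fintype.card I := by
  rw [← card_univ]
  refine card_bij (fun d _ => γ d z') (fun _ _ => mem_univ _) ?_ ?_
  · intro d hd d' hd' e
    rw [mem_filter] at hd hd'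
    exact O.un z z' h d d' (hd.2.trans hd'.2.symm) e
  · intro j _
    obtain ⟨d, h1, h2⟩ := O.ex z z' h i j
    exact ⟨d, by simp [h1], h2⟩

theorem card_blk {γ : G → E → I} (O : OA G E I γ) {e1 e2 : E} (h12 : e1 ≠ e2)
    {q : ℕ} (hE : Fintype.card E = q + 1) (hI : Fintype.card I = q) (k : Blk G E I)
    {b : Finset (E ⊕ (E × G))} (hb : ∀ w, w ∈ b ↔ Inc γ e1 e2 k w) : b.card = q + 1 := by
  rcases k with _ | ⟨e, z, i⟩ | ⟨g, f⟩
  · have : b = univ.image (Sum.inl : E → E ⊕ (E × G)) := by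
      ext w
      rw [hb]
      rcases w with t | t
      · simp [Inc]
      · simp [Inc]
    rw [this, card_image_of_injective _ Sum.inl_injective, card_univ, hE]
  · have hz : ∃ z', z ≠ z' := by
      by_cases h : z = e1
      · exact ⟨e2, h ▸ h12⟩
      · exact ⟨e1, h⟩
    obtain ⟨z', hz⟩ := hz
    have : b = insert (.inl z) ((univ.filter fun d => γ d z = i).image
        (fun d => (.inr (e, d) : E ⊕ (E × G)))) := by
      ext w
      rw [hb]
      rcases w with t | t
      · simp [Inc]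
      · rcases t with ⟨a, d⟩
        simp only [Inc, mem_insert, reduceCtorEq, mem_image, mem_filter, mem_univ, true_and,
          Sum.inr.injEq, Prod.mk.injEq, false_or]
        constructor
        · rintro ⟨rfl, h⟩
          exact ⟨d, h, rfl, rfl⟩
        · rintro ⟨d', h, rfl, rfl⟩
          exact ⟨rfl, h⟩
    rw [this, card_insert_of_notMem (by simp), card_image_of_injective, card_row O hz i, hI]
    intro d d' h
    simpa using h
  · rw [← hE, ← card_univ]
    refine card_bij (fun w _ => match w with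
      | .inl t => t
      | .inr t => t.1) (fun _ _ => mem_univ _) ?_ ?_
    · intro w hw w' hw' e
      rw [hb] at hw hw'
      rcases w with t | ⟨a, d⟩
      · exact absurd hw id
      rcases w' with t' | ⟨a', d'⟩
      · exact absurd hw' id
      simp only [Inc] at hw hw' e
      subst e
      rw [O.un e1 e2 h12 d d' (hw.1.trans hw'.1.symm) (hw.2.trans hw'.2.symm)]
    · intro a _
      obtain ⟨d, h1, h2⟩ := O.ex e1 e2 h12 (γ g a) (γ f a)
      exact ⟨.inr (a, d), (hb _).2 ⟨h1, h2⟩, rfl⟩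

theorem sys_LS {γ : G → E → I} (O : OA G E I γ) {e1 e2 : E} (h12 : e1 ≠ e2)
    {q : ℕ} (hq : 2 ≤ q) (hE : Fintype.card E = q + 1) (hI : Fintype.card I = q) :
    LS (sys γ e1 e2) q := by
  refine ⟨?_, ?_, hq⟩
  · intro b hb
    obtain ⟨k, hk⟩ := mem_sys.1 hb
    exact card_blk O h12 hE hI k hk
  · intro R hR
    obtain ⟨w, w', hw, rfl⟩ := card_eq_two.1 hR
    obtain ⟨k, h1, h2⟩ := inc_ex O w w' hw (e1 := e1) (e2 := e2)
    classical
    refine ⟨univ.filter (Inc γ e1 e2 k), ⟨mem_sys.2 ⟨k, fun w => by simp⟩, ?_⟩, ?_⟩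
    · intro x hx
      rw [mem_insert, mem_singleton] at hx
      rcases hx with rfl | rfl
      · simpa using h1
      · simpa using h2
    · rintro b ⟨hb, hs⟩
      obtain ⟨k', hk'⟩ := mem_sys.1 hb
      have e : k' = k := inc_un O h12 hw ((hk' w).1 (hs (by simp))) ((hk' w').1 (hs (by simp)))
        h1 h2
      subst e
      ext x
      rw [hk']
      simp

theorem sys_swap (γ : G → E → I) (e1 e2 : E) : sys γ e1 e2 = sys γ e2 e1 := by
  have key : ∀ e1 e2 : E, sys γ e1 e2 ⊆ sys γ e2 e1 := by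
    intro e1 e2 b hb
    obtain ⟨k, hk⟩ := mem_sys.1 hb
    apply mem_sys.2
    rcases k with _ | ⟨e, z, i⟩ | ⟨g, f⟩
    · refine ⟨.inf, fun w => ?_⟩
      rw [hk]
      rcases w with t | t <;> simp [Inc]
    · refine ⟨.ver e z i, fun w => ?_⟩
      rw [hk]
      rcases w with t | t <;> simp [Inc]
    · refine ⟨.tra f g, fun w => ?_⟩
      rw [hk]
      rcases w with t | t
      · simp [Inc]
      · simp only [Inc]
        exact and_comm
  exact Subset.antisymm (key _ _) (key _ _)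

theorem sys_veblen {γ : G → E → I} (O : OA G E I γ) {e1 e2 : E} (h12 : e1 ≠ e2) :
    Veblen (sys γ e1 e2) (.inl e1) := by
  intro l hl m hm hlm pl pm a al b bl c cm d dm ap bp cp dp g hg h hh ag cg bh dh
  obtain ⟨kl, hkl⟩ := mem_sys.1 hl
  obtain ⟨km, hkm⟩ := mem_sys.1 hm
  obtain ⟨kg, hkg⟩ := mem_sys.1 hg
  obtain ⟨kh, hkh⟩ := mem_sys.1 hh
  have hne : kl ≠ km := by
    rintro rfl
    apply hlm
    ext x
    rw [hkl, hkm]
  obtain ⟨w, h1, h2⟩ := inc_veblen O h12 hne ((hkl _).1 pl) ((hkm _).1 pm) ((hkl _).1 al)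
    ((hkl _).1 bl) ((hkm _).1 cm) ((hkm _).1 dm) ap bp cp dp ((hkg _).1 ag) ((hkg _).1 cg)
    ((hkh _).1 bh) ((hkh _).1 dh)
  exact ⟨w, (hkg _).2 h1, (hkh _).2 h2⟩

theorem sys_veblen' {γ : G → E → I} (O : OA G E I γ) {e1 e2 : E} (h12 : e1 ≠ e2) :
    Veblen (sys γ e1 e2) (.inl e2) := by
  rw [sys_swap]
  exact sys_veblen O h12.symm

theorem card_G {γ : G → E → I} (O : OA G E I γ) {e1 e2 : E} (h12 : e1 ≠ e2) :
    Fintype.card G = Fintype.card I * Fintype.card I := by
  rw [← Fintype.card_prod]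
  apply Fintype.card_of_bijective (f := fun g => (γ g e1, γ g e2))
  constructor
  · intro g g' h
    simp only [Prod.mk.injEq] at h
    exact O.un e1 e2 h12 g g' h.1 h.2
  · rintro ⟨i, j⟩
    obtain ⟨g, h1, h2⟩ := O.ex e1 e2 h12 i j
    exact ⟨g, by simp [h1, h2]⟩

end

section
variable {V : Type} [DecidableEq V] [Fintype V] {B : Finset (Finset V)} {q : ℕ}

/-- an orthogonal array from a projective plane -/
theorem exists_OA (H : LS B q) (P : Pla B q univ) :
    ∃ (G : Type) (_ : Fintype G) (γ : G → Fin (q + 1) → Fin q), OA G (Fin (q + 1)) (Fin q) γ := by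
  classical
  obtain ⟨x, -⟩ : (univ : Finset V).Nonempty := Pla.ne H P
  -- a block not through `x`
  have hcard : 1 < (univ : Finset V).card := by rw [P.card]; nlinarith [H.hq]
  obtain ⟨y, -, hy⟩ := exists_mem_ne hcard x
  have h0 : ∃ z, z ∉ bl B x y := by
    by_contra hc
    push Not at hc
    have h1 := card_le_card (fun z _ => hc z : (univ : Finset V) ⊆ bl B x y)
    rw [P.card, H.size _ (H.bB hy.symm)] at h1
    nlinarith [H.hq]
  obtain ⟨z, hz⟩ := h0
  have hyz : y ≠ z := fun e => hz (e ▸ H.b2 hy.symm)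
  have hL := H.bB hyz
  have hxL : x ∉ bl B y z := by
    intro h
    have e := H.un hy.symm (H.bB hy.symm) hL (H.b1 hy.symm) (H.b2 hy.symm) h (H.b1 hyz)
    exact hz (e ▸ H.b2 hyz)
  set L := bl B y z with hLdef
  have eL : Fintype.card L = Fintype.card (Fin (q + 1)) := by
    rw [Fintype.card_coe, H.size _ hL, Fintype.card_fin]
  let σ : Fin (q + 1) ≃ L := (Fintype.equivOfCardEq eL).symm
  have hne : ∀ t : L, x ≠ t.1 := fun t e => hxL (e ▸ t.2)
  have eT : ∀ t : L, Fintype.card ((bl B x t.1).erase x : Finset V) = Fintype.card (Fin q) := by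
    intro t
    rw [Fintype.card_coe, card_erase_of_mem (H.b1 (hne t)), H.size _ (H.bB (hne t)),
      Fintype.card_fin, Nat.add_sub_cancel]
  let τ : ∀ t : L, ((bl B x t.1).erase x : Finset V) ≃ Fin q := fun t =>
    Fintype.equivOfCardEq (eT t)
  -- the blocks not through `x`
  let G := {g : Finset V // g ∈ B ∧ x ∉ g}
  have hmeet : ∀ (g : G) (t : L), ∃ w, w ∈ (bl B x t.1).erase x ∧ w ∈ g.1 := by
    intro g t
    obtain ⟨w, h1, h2⟩ := P.meet H (H.bB (hne t)) g.2.1 (subset_univ _) (subset_univ _)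
    exact ⟨w, mem_erase.2 ⟨fun e => g.2.2 (e ▸ h2), h1⟩, h2⟩
  choose mm hm1 hm2 using hmeet
  have huniq : ∀ (g : G) (t : L) w, w ∈ bl B x t.1 → w ∈ g.1 → w = mm g t := by
    intro g t w h1 h2
    refine H.pt (H.bB (hne t)) g.2.1 ?_ h1 h2 (mem_erase.1 (hm1 g t)).2 (hm2 g t)
    intro e
    exact g.2.2 (e ▸ H.b1 (hne t))
  refine ⟨G, inferInstance, fun g e => τ (σ e) ⟨mm g (σ e), hm1 g (σ e)⟩, ?_, ?_, ?_⟩
  · intro e e' he i i'
    have hσ : σ e ≠ σ e' := fun h => he (σ.injective h)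
    obtain ⟨u, hu⟩ := (τ (σ e)).surjective i
    obtain ⟨u', hu'⟩ := (τ (σ e')).surjective i'
    have hu1 := mem_erase.1 u.2
    have hu1' := mem_erase.1 u'.2
    have hss : bl B x (σ e).1 ≠ bl B x (σ e').1 := by
      intro h
      apply hxL
      have e2 : L = bl B x (σ e).1 := by
        refine H.un (fun h' => hσ (Subtype.ext h')) hL (H.bB (hne _)) (σ e).2 (σ e').2
          (H.b2 (hne _)) ?_
        rw [h]
        exact H.b2 (hne _)
      rw [e2]
      exact H.b1 (hne _)
    have huu : u.1 ≠ u'.1 := by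
      intro h
      apply hu1.1
      exact H.pt (H.bB (hne _)) (H.bB (hne _)) hss hu1.2 (h ▸ hu1'.2) (H.b1 (hne _))
        (H.b1 (hne _))
    have hg : x ∉ bl B u.1 u'.1 := by
      intro h
      have e1 : bl B u.1 u'.1 = bl B x (σ e).1 := H.un hu1.1 (H.bB huu) (H.bB (hne _))
        (H.b1 huu) h hu1.2 (H.b1 (hne _))
      have e2 : bl B u.1 u'.1 = bl B x (σ e').1 := H.un hu1'.1 (H.bB huu) (H.bB (hne _))
        (H.b2 huu) h hu1'.2 (H.b1 (hne _))
      exact hss (e1.symm.trans e2)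
    refine ⟨⟨bl B u.1 u'.1, H.bB huu, hg⟩, ?_, ?_⟩
    · rw [← hu]
      congr 1
      apply Subtype.ext
      exact (huniq _ _ _ hu1.2 (H.b1 huu)).symm
    · rw [← hu']
      congr 1
      apply Subtype.ext
      exact (huniq _ _ _ hu1'.2 (H.b2 huu)).symm
  · intro e e' he g g' h1 h2
    have hσ : σ e ≠ σ e' := fun h => he (σ.injective h)
    have k1 : mm g (σ e) = mm g' (σ e) := by
      simpa using (τ (σ e)).injective h1
    have k2 : mm g (σ e') = mm g' (σ e') := by
      simpa using (τ (σ e')).injective h2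
    have hss : bl B x (σ e).1 ≠ bl B x (σ e').1 := by
      intro h
      apply hxL
      have e2 : L = bl B x (σ e).1 := by
        refine H.un (fun h' => hσ (Subtype.ext h')) hL (H.bB (hne _)) (σ e).2 (σ e').2
          (H.b2 (hne _)) ?_
        rw [h]
        exact H.b2 (hne _)
      rw [e2]
      exact H.b1 (hne _)
    have huu : mm g (σ e) ≠ mm g (σ e') := by
      intro h
      apply (mem_erase.1 (hm1 g (σ e))).1
      exact H.pt (H.bB (hne _)) (H.bB (hne _)) hss (mem_erase.1 (hm1 g (σ e))).2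
        (h ▸ (mem_erase.1 (hm1 g (σ e'))).2) (H.b1 (hne _)) (H.b1 (hne _))
    apply Subtype.ext
    exact H.un huu g.2.1 g'.2.1 (hm2 _ _) (hm2 _ _) (k1 ▸ hm2 _ _) (k2 ▸ hm2 _ _)
  · intro g g'
    obtain ⟨w, h1, h2⟩ := P.meet H g.2.1 g'.2.1 (subset_univ _) (subset_univ _)
    have hwx : x ≠ w := fun e => g.2.2 (e ▸ h1)
    obtain ⟨t, ht1, ht2⟩ := P.meet H (H.bB hwx) hL (subset_univ _) (subset_univ _)
    have hwt : w ∈ bl B x t := by
      rw [bl_of H hwx (H.b1 hwx) ht1 (hne ⟨t, ht2⟩)]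
      exact H.b2 hwx
    refine ⟨σ.symm ⟨t, ht2⟩, ?_⟩
    congr 1
    apply Subtype.ext
    have k := huniq g (σ (σ.symm ⟨t, ht2⟩)) w (by simpa using hwt) h1
    have k' := huniq g' (σ (σ.symm ⟨t, ht2⟩)) w (by simpa using hwt) h2
    exact k.symm.trans k'

/-- for every projective plane of order `q` there is a system with two Veblen points -/
theorem exists_two (H : LS B q) (P : Pla B q univ) :
    ∃ (W : Type) (_ : Fintype W) (_ : DecidableEq W) (C : Finset (Finset W)), LS C q ∧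
      Fintype.card W = q ^ 3 + q ^ 2 + q + 1 ∧ ∃ x y : W, x ≠ y ∧ Veblen C x ∧ Veblen C y := by
  classical
  obtain ⟨G, _, γ, O⟩ := exists_OA H P
  have hq := H.hq
  have h12 : (⟨0, by omega⟩ : Fin (q + 1)) ≠ ⟨1, by omega⟩ := by
    intro h
    simp at h
  refine ⟨Fin (q + 1) ⊕ (Fin (q + 1) × G), inferInstance, inferInstance, sys γ _ _,
    sys_LS O h12 hq (by simp) (by simp), ?_, .inl _, .inl _, ?_, sys_veblen O h12,
    sys_veblen' O h12⟩
  · rw [Fintype.card_sum, Fintype.card_prod, card_G O h12]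
    simp only [Fintype.card_fin]
    ring
  · intro h
    exact h12 (Sum.inl_injective h)

end

end Pool.Agent.Helper19.V3
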