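import Mathlib
import Pool.Agent.Helper19.V3.Plane

set_option autoImplicit false

/-!
# Collineations of a plane that fix all blocks through a point
-/

namespace Pool.Agent.Helper19.V3

open Finset Pool.Agent.V11100.VB Pool.Agent.Helper19.VS

variable {V : Type} [DecidableEq V] {B : Finset (Finset V)} {q : ℕ} {A : Finset V} {c : V}

/-- a collineation of `A` fixing every block through `c`, as a permutation of `V` -/
structure IsK (B : Finset (Finset V)) (A : Finset V) (c : V) (k : Equiv.Perm V) : Prop where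
  out : ∀ x, x ∉ A → k x = x
  ctr : k c = c
  ray : ∀ x ∈ A, x ≠ c → k x ∈ bl B c x
  col : ∀ x ∈ A, ∀ y ∈ A, x ≠ y → ∀ z ∈ bl B x y, k z ∈ bl B (k x) (k y)

section
variable (H : LS B q) (P : Pla B q A) (hc : c ∈ A)
include H P hc

theorem IsK.mem {k : Equiv.Perm V} (h : IsK B A c k) {x : V} (hx : x ∈ A) : k x ∈ A := by
  by_cases hxc : x = c
  · rw [hxc, h.ctr]; exact hc
  · exact P.cl c hc x hx (Ne.symm hxc) (h.ray x hx hxc)

theorem IsK.one : IsK B A c 1 := by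
  refine ⟨fun _ _ => rfl, rfl, fun x _ hxc => H.b2 (Ne.symm hxc), fun x _ y _ _ z hz => hz⟩

theorem IsK.mul {k l : Equiv.Perm V} (hk : IsK B A c k) (hl : IsK B A c l) :
    IsK B A c (k * l) := by
  refine ⟨?_, ?_, ?_, ?_⟩
  · intro x hx
    rw [Equiv.Perm.mul_apply, hl.out x hx, hk.out x hx]
  · rw [Equiv.Perm.mul_apply, hl.ctr, hk.ctr]
  · intro x hx hxc
    rw [Equiv.Perm.mul_apply]
    have h1 : l x ≠ c := fun e => hxc (l.injective (e.trans hl.ctr.symm))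
    have h2 := hk.ray (l x) (hl.mem H P hc hx) h1
    rw [bl_of H (Ne.symm hxc) (H.b1 (Ne.symm hxc)) (hl.ray x hx hxc) h1.symm] at h2
    exact h2
  · intro x hx y hy hxy z hz
    rw [Equiv.Perm.mul_apply, Equiv.Perm.mul_apply, Equiv.Perm.mul_apply]
    exact hk.col (l x) (hl.mem H P hc hx) (l y) (hl.mem H P hc hy) (fun e => hxy (l.injective e))
      (l z) (hl.col x hx y hy hxy z hz)

theorem IsK.inv {k : Equiv.Perm V} (hk : IsK B A c k) : IsK B A c k⁻¹ := by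
  have ki : ∀ x, k (k⁻¹ x) = x := fun x => k.apply_symm_apply x
  have memA : ∀ x ∈ A, k⁻¹ x ∈ A := by
    intro x hx
    by_contra hcon
    have h1 := hk.out _ hcon
    rw [ki] at h1
    exact hcon (h1 ▸ hx)
  have hc' : k⁻¹ c = c := k.injective (by rw [ki, hk.ctr])
  refine ⟨?_, hc', ?_, ?_⟩
  · intro x hx
    exact k.injective (by rw [ki, hk.out x hx])
  · intro x hx hxc
    have h1 : k⁻¹ x ≠ c := fun e => hxc (by rw [← ki x, e, hk.ctr])
    have h2 := hk.ray (k⁻¹ x) (memA x hx) h1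
    rw [ki] at h2
    rw [bl_of H h1.symm (H.b1 h1.symm) h2 (Ne.symm hxc)]
    exact H.b2 h1.symm
  · intro x hx y hy hxy z hz
    have hne : k⁻¹ x ≠ k⁻¹ y := fun e => hxy (k⁻¹.injective e)
    have hsub : (bl B (k⁻¹ x) (k⁻¹ y)).image k ⊆ bl B x y := by
      intro w hw
      rw [mem_image] at hw
      obtain ⟨t, ht, rfl⟩ := hw
      have := hk.col _ (memA x hx) _ (memA y hy) hne t ht
      rw [ki, ki] at this
      exact this
    have heq := eq_of_subset_of_card_le hsub (by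
      rw [card_image_of_injective _ k.injective, H.size _ (H.bB hne), H.size _ (H.bB hxy)])
    rw [← heq, mem_image] at hz
    obtain ⟨t, ht, rfl⟩ := hz
    have : k⁻¹ (k t) = t := k.symm_apply_apply t
    rw [this]
    exact ht

/-- the group of these collineations -/
def KG : Subgroup (Equiv.Perm V) where
  carrier := {k | IsK B A c k}
  mul_mem' := fun ha hb => IsK.mul H P hc ha hb
  one_mem' := IsK.one H P hc
  inv_mem' := fun ha => IsK.inv H P hc ha

/-- a fixed line not through the centre is fixed pointwise -/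
theorem IsK.fix_line {k : Equiv.Perm V} (hk : IsK B A c k) {x y z : V} (hx : x ∈ A) (hy : y ∈ A)
    (hxy : x ≠ y) (kx : k x = x) (ky : k y = y) (hcn : c ∉ bl B x y) (hz : z ∈ bl B x y) :
    k z = z := by
  have h1 := hk.col x hx y hy hxy z hz
  rw [kx, ky] at h1
  have hzA : z ∈ A := P.cl x hx y hy hxy hz
  have hzc : z ≠ c := fun e => hcn (e ▸ hz)
  have h2 := hk.ray z hzA hzc
  by_contra hne
  apply hcn
  rw [← bl_of H hxy h1 hz hne, bl_of H (Ne.symm hzc) h2 (H.b2 (Ne.symm hzc)) hne]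
  exact H.b1 (Ne.symm hzc)

theorem IsK.eq_one {k : Equiv.Perm V} (hk : IsK B A c k) {g : Finset V} (hg : g ∈ B)
    (hgA : g ⊆ A) (hfix : ∀ z ∈ g, k z = z) {u : V} (hu : u ∈ A) (hug : u ∉ g) (huc : u ≠ c)
    (ku : k u = u) : k = 1 := by
  have step1 : ∀ z ∈ A, z ∉ bl B c u → k z = z := by
    intro z hz hzcu
    by_cases hzg : z ∈ g
    · exact hfix z hzg
    have zu : z ≠ u := fun e => hzcu (by rw [e]; exact H.b2 huc.symm)
    obtain ⟨v, hvg, hv⟩ := P.meet H hg (H.bB zu) hgA (P.cl z hz u hu zu)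
    have uv : u ≠ v := fun e => hug (e ▸ hvg)
    have e1 : bl B u v = bl B z u := bl_of H zu (H.b2 zu) hv uv
    refine hk.fix_line H P hc hu (hgA hvg) uv ku (hfix v hvg) ?_ (by rw [e1]; exact H.b1 zu)
    rw [e1]
    intro hcz
    apply hzcu
    rw [bl_of H zu hcz (H.b2 zu) huc.symm]
    exact H.b1 zu
  ext z
  rw [Equiv.Perm.one_apply]
  by_cases hzA : z ∈ A
  swap
  · exact hk.out z hzA
  by_cases hzc : z = c
  · rw [hzc]; exact hk.ctr
  by_cases hzl : z ∈ bl B c u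
  swap
  · exact step1 z hzA hzl
  -- another line through `z`
  obtain ⟨t, ht, htl⟩ : ∃ t ∈ A, t ∉ bl B c u := by
    by_contra hcon
    push Not at hcon
    have h1 := card_le_card (show A ⊆ bl B c u from hcon)
    rw [P.card, H.size _ (H.bB huc.symm)] at h1
    have := H.hq
    nlinarith
  have zt : z ≠ t := fun e => htl (e ▸ hzl)
  obtain ⟨t', ht', h1, h2⟩ := H.three_pts (H.bB zt) z t
  have hcz : bl B c z = bl B c u := bl_of H huc.symm (H.b1 huc.symm) hzl (Ne.symm hzc)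
  have hcn : c ∉ bl B z t := by
    intro hcc
    apply htl
    rw [← hcz, bl_of H zt hcc (H.b1 zt) (Ne.symm hzc)]
    exact H.b2 zt
  have ht'A : t' ∈ A := P.cl z hzA t ht zt ht'
  have ht'l : t' ∉ bl B c u := by
    intro hcc
    rw [← hcz] at hcc
    have e1 : bl B z t' = bl B c z := bl_of H (Ne.symm hzc) (H.b2 (Ne.symm hzc)) hcc h1.symm
    have e2 : bl B z t' = bl B z t := bl_of H zt (H.b1 zt) ht' h1.symm
    apply hcn
    rw [← e2, e1]
    exact H.b1 (Ne.symm hzc)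
  have e3 : bl B t t' = bl B z t := bl_of H zt (H.b2 zt) ht' h2.symm
  exact hk.fix_line H P hc ht ht'A h2.symm (step1 t ht htl) (step1 t' ht'A ht'l)
    (by rw [e3]; exact hcn) (by rw [e3]; exact H.b1 zt)

end

/-- projecting from `p2` to `C` and back from `p3` -/
theorem mkK [Finite V] (H : LS B q) {S : Finset V} (T : Spc B q S) {p2 p3 : V}
    (v2 : Veblen B p2) (v3 : Veblen B p3) (h2 : p2 ∈ S) (h3 : p3 ∈ S) (h23 : p2 ≠ p3)
    (PA : Pla B q A) (hA : A ⊆ S) (n2 : p2 ∉ A) (n3 : p3 ∉ A) {C : Finset V}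
    (PC : Pla B q C) (hC : C ⊆ S) (m2 : p2 ∉ C) (m3 : p3 ∉ C) (hcA : c ∈ A)
    (hc : c ∈ bl B p2 p3) :
    ∃ k, IsK B A c k ∧ ∀ x ∈ A, k x = pj B p3 A (pj B p2 C x) := by
  have c2 : c ≠ p2 := fun e => n2 (e ▸ hcA)
  have c3 : c ≠ p3 := fun e => n3 (e ▸ hcA)
  have sp2 : ∀ x ∈ A, pj B p2 C x ∈ C ∧ pj B p2 C x ∈ bl B p2 x := fun x hx =>
    pj_spec H T h2 PC hC m2 (hA hx) (fun e => n2 (e ▸ hx))
  have sp3 : ∀ x ∈ C, pj B p3 A x ∈ A ∧ pj B p3 A x ∈ bl B p3 x := fun x hx =>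
    pj_spec H T h3 PA hA n3 (hC hx) (fun e => m3 (e ▸ hx))
  set f : V → V := fun x => if x ∈ A then pj B p3 A (pj B p2 C x) else x with hf
  have fA : ∀ x ∈ A, f x = pj B p3 A (pj B p2 C x) := fun x hx => by
    simp only [hf]; rw [if_pos hx]
  have fn : ∀ x, x ∉ A → f x = x := fun x hx => by
    simp only [hf]; rw [if_neg hx]
  have fmem : ∀ x ∈ A, f x ∈ A := fun x hx => by
    rw [fA x hx]; exact (sp3 _ (sp2 x hx).1).1
  have fcol : ∀ x ∈ A, ∀ y ∈ A, x ≠ y → f x ≠ f y ∧ ∀ z ∈ bl B x y, f z ∈ bl B (f x) (f y) := by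
    intro x hx y hy hxy
    have h1 : ∀ z ∈ bl B x y, pj B p2 C x ≠ pj B p2 C y ∧
        pj B p2 C z ∈ bl B (pj B p2 C x) (pj B p2 C y) := fun z hz =>
      pj_col H T v2 h2 PA hA n2 PC hC m2 hx hy hxy hz
    have hne := (h1 x (H.b1 hxy)).1
    have h4 : ∀ z ∈ bl B x y, pj B p3 A (pj B p2 C x) ≠ pj B p3 A (pj B p2 C y) ∧
        pj B p3 A (pj B p2 C z) ∈ bl B (pj B p3 A (pj B p2 C x)) (pj B p3 A (pj B p2 C y)) :=
      fun z hz => pj_col H T v3 h3 PC hC m3 PA hA n3 (sp2 x hx).1 (sp2 y hy).1 hne (h1 z hz).2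
    rw [fA x hx, fA y hy]
    refine ⟨(h4 x (H.b1 hxy)).1, ?_⟩
    intro z hz
    rw [fA z (PA.cl x hx y hy hxy hz)]
    exact (h4 z hz).2
  have finj : Function.Injective f := by
    intro x y e
    by_contra hxy
    by_cases hx : x ∈ A
    · by_cases hy : y ∈ A
      · exact (fcol x hx y hy hxy).1 e
      · rw [fn y hy] at e
        exact hy (e ▸ fmem x hx)
    · by_cases hy : y ∈ A
      · rw [fn x hx] at e
        exact hx (e ▸ fmem y hy)
      · rw [fn x hx, fn y hy] at e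
        exact hxy e
  refine ⟨Equiv.ofBijective f (Finite.injective_iff_bijective.1 finj), ⟨fn, ?_, ?_, ?_⟩, fA⟩
  · show f c = c
    have q2 := sp2 c hcA
    have e1 : bl B p2 c = bl B p2 p3 := bl_of H h23 (H.b1 h23) hc c2.symm
    rw [e1] at q2
    have q3 := sp3 _ q2.1
    have n : p3 ≠ pj B p2 C c := fun e => m3 (e ▸ q2.1)
    have e2 : bl B p3 (pj B p2 C c) = bl B p2 p3 := bl_of H h23 (H.b2 h23) q2.2 n
    rw [e2] at q3
    rw [fA c hcA]
    exact one_pt H PA.cl (H.bB h23) n2 (H.b1 h23) q3.1 hcA q3.2 hc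
  · intro x hx hxc
    show f x ∈ bl B c x
    have xp2 : x ≠ p2 := fun e => n2 (e ▸ hx)
    have xp3 : x ≠ p3 := fun e => n3 (e ▸ hx)
    have hp23 : p2 ∉ bl B p3 x := by
      intro hcon
      have e1 : bl B p2 p3 = bl B p3 x := bl_of H xp3.symm hcon (H.b1 xp3.symm) h23
      exact hxc (one_pt H PA.cl (H.bB h23) n2 (H.b1 h23) hx hcA (e1 ▸ H.b2 xp3.symm) hc)
    have Q := pla_pl H v2 (H.bB xp3.symm) hp23
    set Ω := pl B p2 (bl B p3 x)
    have o2 : p2 ∈ Ω := H.p_mem (H.bB xp3.symm) hp23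
    have o3 : p3 ∈ Ω := H.L_sub hp23 (H.b1 xp3.symm)
    have ox : x ∈ Ω := H.L_sub hp23 (H.b2 xp3.symm)
    have oc : c ∈ Ω := Q.cl p2 o2 p3 o3 h23 hc
    have q2 := sp2 x hx
    have ox' : pj B p2 C x ∈ Ω := Q.cl p2 o2 x ox xp2.symm q2.2
    have q3 := sp3 _ q2.1
    have n : p3 ≠ pj B p2 C x := fun e => m3 (e ▸ q2.1)
    have ox'' : pj B p3 A (pj B p2 C x) ∈ Ω := Q.cl p3 o3 _ ox' n q3.2
    rw [fA x hx]
    by_contra hcon
    apply n2
    rw [PA.uniq H Q q3.1 ox'' (H.bB (Ne.symm hxc)) (PA.cl c hcA x hx (Ne.symm hxc))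
      (Q.cl c oc x ox (Ne.symm hxc)) hcon]
    exact o2
  · intro x hx y hy hxy z hz
    exact (fcol x hx y hy hxy).2 z hz

end Pool.Agent.Helper19.V3
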