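import Mathlib
import Pool.Agent.Helper19.V3.Col
import Pool.Graph.R_pool_sql_team_seeded_843ab51a.V11100.VB.Sharp

set_option autoImplicit false

/-!
# Three Veblen points not on a block
-/

namespace Pool.Agent.Helper19.V3

open Finset Pool.Agent.V11100.VB Pool.Agent.Helper19.VS

variable {V : Type} [DecidableEq V] [Fintype V] {B : Finset (Finset V)} {q : ℕ}

theorem vertex_mem (H : LS B q) {p : V} {A : Finset V} (P : Pla B q A) (hp : p ∉ A) :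
    p ∈ pl B p A := by
  obtain ⟨y, hy⟩ := Pla.ne H P
  have hpy : p ≠ y := fun e => hp (e ▸ hy)
  unfold pl
  rw [mem_biUnion]
  exact ⟨y, hy, H.b1 hpy⟩

theorem exists_out {S : Finset V} (h : S.card < Fintype.card V) : ∃ y, y ∉ S := by
  by_contra hc
  push Not at hc
  have h1 : (univ : Finset V) ⊆ S := fun y _ => hc y
  have h2 := card_le_card h1
  rw [card_univ] at h2
  omega

theorem noncol (H : LS B q) {p1 p2 p3 : V} (v1 : Veblen B p1) (v2 : Veblen B p2)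
    (v3 : Veblen B p3) (h23 : p2 ≠ p3) (h1 : p1 ∉ bl B p2 p3)
    (hn : (q + 1) * q + 1 < Fintype.card V) : IsPrimePow q := by
  classical
  obtain ⟨c, hc, c2, c3⟩ := H.three_pts (H.bB h23) p2 p3
  have Q0 := pla_pl H v1 (H.bB h23) h1
  set Ω0 := pl B p1 (bl B p2 p3) with hΩ0
  obtain ⟨y, hy⟩ := exists_out (S := Ω0) (by rw [Q0.card]; exact hn)
  have cΩ : c ∈ Ω0 := H.L_sub h1 hc
  have pΩ : p1 ∈ Ω0 := H.p_mem (H.bB h23) h1
  have hcy : c ≠ y := fun e => hy (e ▸ cΩ)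
  have hp1c : p1 ≠ c := fun e => h1 (e ▸ hc)
  have n1 : p1 ∉ bl B c y := by
    intro hcon
    apply hy
    have e := bl_of H hcy hcon (H.b1 hcy) hp1c
    exact Q0.cl p1 pΩ c cΩ hp1c (e ▸ H.b2 hcy)
  have PA := pla_pl H v1 (H.bB hcy) n1
  set A := pl B p1 (bl B c y) with hA
  set m := bl B c y with hm
  have mB : m ∈ B := H.bB hcy
  have mA : m ⊆ A := H.L_sub n1
  have cm : c ∈ m := H.b1 hcy
  have cA : c ∈ A := mA cm
  have yA : y ∈ A := mA (H.b2 hcy)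
  have pA : p1 ∈ A := H.p_mem mB n1
  have lA : ¬ bl B p2 p3 ⊆ A := by
    intro hcon
    apply hy
    have : A = Ω0 := PA.uniq H Q0 pA pΩ (H.bB h23) hcon (H.L_sub h1) h1
    rw [← this]
    exact yA
  have n2 : p2 ∉ A := by
    intro hcon
    apply lA
    rw [← bl_of H h23 (H.b1 h23) hc c2.symm]
    exact PA.cl p2 hcon c cA c2.symm
  have n3 : p3 ∉ A := by
    intro hcon
    apply lA
    rw [← bl_of H h23 (H.b2 h23) hc c3.symm]
    exact PA.cl p3 hcon c cA c3.symm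
  have T := spc_cone H v2 PA n2
  set S := pl B p2 A with hS
  have AS : A ⊆ S := H.L_sub n2
  have s2 : p2 ∈ S := vertex_mem H PA n2
  have s3 : p3 ∈ S := by
    have e := bl_of H h23 (H.b1 h23) hc c2.symm
    have := T.cl p2 s2 c (AS cA) c2.symm
    rw [e] at this
    exact this (H.b2 h23)
  have s1 : p1 ∈ S := AS pA
  -- the group
  let G : Subgroup (Equiv.Perm {x // x ∈ m.erase c}) :=
    { carrier := {g | ∃ k, IsK B A c k ∧ k p1 = p1 ∧ ∀ x : {x // x ∈ m.erase c}, k x = (g x : V)}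
      mul_mem' := by
        rintro g g' ⟨k, hk, kp, hkg⟩ ⟨k', hk', kp', hkg'⟩
        refine ⟨k * k', hk.mul H PA cA hk', by rw [Equiv.Perm.mul_apply, kp', kp], ?_⟩
        intro x
        rw [Equiv.Perm.mul_apply, hkg', hkg]
        rfl
      one_mem' := ⟨1, IsK.one H PA cA, rfl, fun _ => rfl⟩
      inv_mem' := by
        rintro g ⟨k, hk, kp, hkg⟩
        refine ⟨k⁻¹, hk.inv H PA cA, ?_, ?_⟩
        · rw [Equiv.Perm.inv_eq_iff_eq, kp]
        · intro x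
          rw [Equiv.Perm.inv_eq_iff_eq, hkg]
          congr 1
          exact (g.apply_symm_apply x).symm }
  have hX : Fintype.card {x // x ∈ m.erase c} = q := by
    rw [Fintype.card_coe, card_erase_of_mem cm, H.size m mB]
    rfl
  rw [← hX]
  refine sharp_two G (by rw [hX]; exact H.hq) ?_
  rintro ⟨x, hx⟩ ⟨x', hx'⟩ ⟨z, hz⟩ ⟨z', hz'⟩ hxx hzz
  have hxx' : x ≠ x' := fun e => hxx (Subtype.ext e)
  have hzz' : z ≠ z' := fun e => hzz (Subtype.ext e)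
  rw [mem_erase] at hx hx' hz hz'
  -- the plane `Ω` of `p2` and `m`
  have n2m : p2 ∉ m := fun h => n2 (mA h)
  have n3m : p3 ∉ m := fun h => n3 (mA h)
  have QΩ := pla_pl H v2 mB n2m
  set Ω := pl B p2 m with hΩ
  have mΩ : m ⊆ Ω := H.L_sub n2m
  have o2 : p2 ∈ Ω := H.p_mem mB n2m
  have o3 : p3 ∈ Ω := by
    have e := bl_of H h23 (H.b1 h23) hc c2.symm
    have := QΩ.cl p2 o2 c (mΩ cm) c2.symm
    rw [e] at this
    exact this (H.b2 h23)
  have o1 : p1 ∉ Ω := by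
    intro hcon
    apply n2
    rw [PA.uniq H QΩ pA hcon mB mA mΩ n1]
    exact o2
  -- intersection points
  have key : ∀ x z : V, x ≠ c ∧ x ∈ m → z ≠ c ∧ z ∈ m → ∃ u ∈ Ω, u ∈ bl B p2 x ∧ u ∈ bl B p3 z ∧
      u ≠ p2 ∧ u ≠ p3 := by
    intro x z hx hz
    have a2 : p2 ≠ x := fun e => n2m (e ▸ hx.2)
    have a3 : p3 ≠ z := fun e => n3m (e ▸ hz.2)
    obtain ⟨u, hu, hu'⟩ := QΩ.meet H (H.bB a2) (H.bB a3) (QΩ.cl p2 o2 x (mΩ hx.2) a2)
      (QΩ.cl p3 o3 z (mΩ hz.2) a3)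
    refine ⟨u, QΩ.cl p2 o2 x (mΩ hx.2) a2 hu, hu, hu', ?_, ?_⟩
    · rintro rfl
      have e1 : bl B u p3 = bl B p3 z := bl_of H a3 hu' (H.b1 a3) h23
      exact hz.1 (one_pt H PA.cl (H.bB h23) n2 (H.b1 h23) (mA hz.2) cA (e1 ▸ H.b2 a3) hc)
    · rintro rfl
      have e1 : bl B p2 u = bl B p2 x := bl_of H a2 (H.b1 a2) hu h23
      exact hx.1 (one_pt H PA.cl (H.bB h23) n2 (H.b1 h23) (mA hx.2) cA (e1 ▸ H.b2 a2) hc)
  obtain ⟨u, uΩ, u2, u3, up2, up3⟩ := key x z hx hz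
  obtain ⟨u', uΩ', u2', u3', up2', up3'⟩ := key x' z' hx' hz'
  have a2 : p2 ≠ x := fun e => n2m (e ▸ hx.2)
  have a2' : p2 ≠ x' := fun e => n2m (e ▸ hx'.2)
  have a3 : p3 ≠ z := fun e => n3m (e ▸ hz.2)
  have a3' : p3 ≠ z' := fun e => n3m (e ▸ hz'.2)
  have lx : bl B p2 x ≠ bl B p2 x' := by
    intro e
    exact hxx' (one_pt H PA.cl (H.bB a2) n2 (H.b1 a2) (mA hx.2) (mA hx'.2) (H.b2 a2)
      (e ▸ H.b2 a2'))
  have lz : bl B p3 z ≠ bl B p3 z' := by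
    intro e
    exact hzz' (one_pt H PA.cl (H.bB a3) n3 (H.b1 a3) (mA hz.2) (mA hz'.2) (H.b2 a3)
      (e ▸ H.b2 a3'))
  have huu : u ≠ u' := by
    intro e
    exact up2 (H.pt (H.bB a2) (H.bB a2') lx u2 (e ▸ u2') (H.b1 a2) (H.b1 a2'))
  have nΩ : bl B u u' ⊆ Ω := QΩ.cl u uΩ u' uΩ' huu
  have n1n : p1 ∉ bl B u u' := fun h => o1 (nΩ h)
  have n2n : p2 ∉ bl B u u' := by
    intro hcon
    apply lx
    rw [← bl_of H a2 (H.b1 a2) u2 up2.symm, ← bl_of H a2' (H.b1 a2') u2' up2'.symm,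
      bl_of H huu hcon (H.b1 huu) up2.symm, bl_of H huu hcon (H.b2 huu) up2'.symm]
  have n3n : p3 ∉ bl B u u' := by
    intro hcon
    apply lz
    rw [← bl_of H a3 (H.b1 a3) u3 up3.symm, ← bl_of H a3' (H.b1 a3') u3' up3'.symm,
      bl_of H huu hcon (H.b1 huu) up3.symm, bl_of H huu hcon (H.b2 huu) up3'.symm]
  have PC := pla_pl H v1 (H.bB huu) n1n
  set C := pl B p1 (bl B u u') with hC
  have pC : p1 ∈ C := H.p_mem (H.bB huu) n1n
  have nC : bl B u u' ⊆ C := H.L_sub n1n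
  have m2 : p2 ∉ C := by
    intro hcon
    apply o1
    rw [← PC.uniq H QΩ hcon o2 (H.bB huu) nC nΩ n2n]
    exact pC
  have m3 : p3 ∉ C := by
    intro hcon
    apply o1
    rw [← PC.uniq H QΩ hcon o3 (H.bB huu) nC nΩ n3n]
    exact pC
  have ΩS : Ω ⊆ S := by
    intro t ht
    rw [hΩ] at ht
    unfold pl at ht
    rw [mem_biUnion] at ht
    obtain ⟨w, hw, htw⟩ := ht
    rw [hS]
    unfold pl
    rw [mem_biUnion]
    exact ⟨w, mA hw, htw⟩
  have CS : C ⊆ S := by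
    intro t ht
    rw [hC] at ht
    unfold pl at ht
    rw [mem_biUnion] at ht
    obtain ⟨w, hw, htw⟩ := ht
    have p1w : p1 ≠ w := fun e => n1n (e ▸ hw)
    exact T.cl p1 s1 w (ΩS (nΩ hw)) p1w htw
  obtain ⟨k, hk, hkf⟩ := mkK H T v2 v3 s2 s3 h23 PA AS n2 n3 PC CS m2 m3 cA hc
  have val : ∀ x z u : V, x ∈ A → z ∈ A → p2 ≠ x → p3 ≠ z → u ∈ C → u ∈ bl B p2 x →
      u ∈ bl B p3 z → u ≠ p3 → k x = z := by
    intro x z u hx hz a2 a3 hu h2 h3 h4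
    rw [hkf x hx, pj_uniq H T s2 PC CS m2 (AS hx) a2.symm hu h2]
    refine pj_uniq H T s3 PA AS n3 (CS hu) h4 hz ?_
    rw [bl_of H a3 (H.b1 a3) h3 h4.symm]
    exact H.b2 a3
  have kp1 : k p1 = p1 := by
    have a2 : p2 ≠ p1 := fun e => n2 (e ▸ pA)
    have a3 : p3 ≠ p1 := fun e => n3 (e ▸ pA)
    exact val p1 p1 p1 pA pA a2 a3 pC (H.b2 a2) (H.b2 a3) a3.symm
  have kx : k x = z := val x z u (mA hx.2) (mA hz.2) a2 a3 (nC (H.b1 huu)) u2 u3 up3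
  have kx' : k x' = z' := val x' z' u' (mA hx'.2) (mA hz'.2) a2' a3' (nC (H.b2 huu)) u2' u3' up3'
  have kmem : ∀ t, k t ∈ m.erase c ↔ t ∈ m.erase c := by
    have h5 : ∀ {k : Equiv.Perm V}, IsK B A c k → ∀ t ∈ m.erase c, k t ∈ m.erase c := by
      intro k hk t ht
      rw [mem_erase] at ht ⊢
      refine ⟨fun e => ht.1 (k.injective (e.trans hk.ctr.symm)), ?_⟩
      have := hk.ray t (mA ht.2) ht.1
      rw [H.bl_eq (Ne.symm ht.1) mB cm ht.2] at this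
      exact this
    intro t
    refine ⟨fun h => ?_, h5 hk t⟩
    have := h5 (hk.inv H PA cA) _ h
    have e : k⁻¹ (k t) = t := k.symm_apply_apply t
    rwa [e] at this
  refine ⟨k.subtypePerm kmem, ⟨⟨k, hk, kp1, fun x => rfl⟩, Subtype.ext kx, Subtype.ext kx'⟩, ?_⟩
  rintro g ⟨⟨l, hl, lp, hlg⟩, gx, gx'⟩
  have lx1 : l x = z := by
    have := hlg ⟨x, mem_erase.2 hx⟩
    rw [gx] at this
    exact this
  have lx2 : l x' = z' := by
    have := hlg ⟨x', mem_erase.2 hx'⟩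
    rw [gx'] at this
    exact this
  have hkl := (hk.inv H PA cA).mul H PA cA hl
  have f1 : (k⁻¹ * l) p1 = p1 := by
    rw [Equiv.Perm.mul_apply, lp, Equiv.Perm.inv_eq_iff_eq, kp1]
  have f2 : (k⁻¹ * l) x = x := by
    rw [Equiv.Perm.mul_apply, lx1, Equiv.Perm.inv_eq_iff_eq, kx]
  have f3 : (k⁻¹ * l) x' = x' := by
    rw [Equiv.Perm.mul_apply, lx2, Equiv.Perm.inv_eq_iff_eq, kx']
  have p1x : p1 ≠ x := fun e => n1 (e ▸ hx.2)
  have cn : c ∉ bl B p1 x := by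
    intro hcon
    apply n1
    have e1 := bl_of H p1x hcon (H.b2 p1x) (Ne.symm hx.1)
    have e2 : bl B c x = m := H.bl_eq (Ne.symm hx.1) mB cm hx.2
    rw [← e2, e1]
    exact H.b1 p1x
  have xn : x' ∉ bl B p1 x := by
    intro hcon
    apply n1
    have e1 := bl_of H p1x (H.b2 p1x) hcon hxx'
    have e2 : bl B x x' = m := H.bl_eq hxx' mB hx.2 hx'.2
    rw [← e2, e1]
    exact H.b1 p1x
  have h1 := hkl.eq_one H PA cA (H.bB p1x) (PA.cl p1 pA x (mA hx.2) p1x)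
    (fun w hw => hkl.fix_line H PA cA pA (mA hx.2) p1x f1 f2 cn hw) (mA hx'.2) xn hx'.1 f3
  have h2 : l = k := (inv_mul_eq_one.1 h1).symm
  ext ⟨t, ht⟩
  have h3 := hlg ⟨t, ht⟩
  rw [h2] at h3
  exact h3.symm

end Pool.Agent.Helper19.V3
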