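import Mathlib
import Pool.Agent.Helper19.V3.Noncol

set_option autoImplicit false

/-!
# Three Veblen points on a block
-/

namespace Pool.Agent.Helper19.V3

open Finset Pool.Agent.V11100.VB Pool.Agent.Helper19.VS

variable {V : Type} [DecidableEq V] [Fintype V] {B : Finset (Finset V)} {q : ℕ}

/-- a plane through one of three Veblen points of a block, in a three-dimensional subsystem -/
structure Cfg (B : Finset (Finset V)) (q : ℕ) (A S : Finset V) (p1 p2 p3 : V) : Prop where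
  H : LS B q
  v1 : Veblen B p1
  v2 : Veblen B p2
  v3 : Veblen B p3
  h12 : p1 ≠ p2
  h13 : p1 ≠ p3
  h23 : p2 ≠ p3
  hc : p1 ∈ bl B p2 p3
  PA : Pla B q A
  T : Spc B q S
  pA : p1 ∈ A
  AS : A ⊆ S
  n2 : p2 ∉ A
  n3 : p3 ∉ A
  s2 : p2 ∈ S
  s3 : p3 ∈ S

section

variable {A S : Finset V} {p1 p2 p3 : V} (F : Cfg B q A S p1 p2 p3)
include F

/-- the centre of the perspectivity taking `x` to `y` -/
theorem Cfg.pt_u {x y : V} (hx : x ∈ A) (hxp : x ≠ p1) (hy : y ∈ bl B p1 x) (hyp : y ≠ p1)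
    (hxy : x ≠ y) : ∃ u ∈ S, u ∈ bl B p2 x ∧ u ∈ bl B p3 y ∧ u ≠ p2 ∧ u ≠ p3 ∧ u ∉ A := by
  have H := F.H
  have hg : bl B p1 x ⊆ A := F.PA.cl p1 F.pA x hx hxp.symm
  have n2m : p2 ∉ bl B p1 x := fun h => F.n2 (hg h)
  have QΩ := pla_pl H F.v2 (H.bB hxp.symm) n2m
  have mΩ : bl B p1 x ⊆ pl B p2 (bl B p1 x) := H.L_sub n2m
  have o2 : p2 ∈ pl B p2 (bl B p1 x) := H.p_mem (H.bB hxp.symm) n2m
  have o3 : p3 ∈ pl B p2 (bl B p1 x) := by
    have e := bl_of H F.h23 (H.b1 F.h23) F.hc F.h12.symm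
    have := QΩ.cl p2 o2 p1 (mΩ (H.b1 hxp.symm)) F.h12.symm
    rw [e] at this
    exact this (H.b2 F.h23)
  have hyA : y ∈ A := hg hy
  have a2 : p2 ≠ x := fun e => F.n2 (e ▸ hx)
  have a3 : p3 ≠ y := fun e => F.n3 (e ▸ hyA)
  obtain ⟨u, hu, hu'⟩ := QΩ.meet H (H.bB a2) (H.bB a3)
    (QΩ.cl p2 o2 x (mΩ (H.b2 hxp.symm)) a2) (QΩ.cl p3 o3 y (mΩ hy) a3)
  refine ⟨u, F.T.cl p2 F.s2 x (F.AS hx) a2 hu, hu, hu', ?_, ?_, ?_⟩
  · rintro rfl
    have e1 : bl B u p3 = bl B p3 y := bl_of H a3 hu' (H.b1 a3) F.h23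
    exact hyp (one_pt H F.PA.cl (H.bB F.h23) F.n2 (H.b1 F.h23) hyA F.pA (e1 ▸ H.b2 a3) F.hc)
  · rintro rfl
    have e1 : bl B p2 u = bl B p2 x := bl_of H a2 (H.b1 a2) hu F.h23
    exact hxp (one_pt H F.PA.cl (H.bB F.h23) F.n2 (H.b1 F.h23) hx F.pA (e1 ▸ H.b2 a2) F.hc)
  · intro huA
    have e1 : u = x := one_pt H F.PA.cl (H.bB a2) F.n2 (H.b1 a2) huA hx hu (H.b2 a2)
    have e2 : u = y := one_pt H F.PA.cl (H.bB a3) F.n3 (H.b1 a3) huA hyA hu' (H.b2 a3)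
    exact hxy (e1.symm.trans e2)

/-- an elation with given axis taking `x` to `y`, as a product of two projections -/
theorem Cfg.ex {g : Finset V} (hg : g ∈ B) (hgA : g ⊆ A) (pg : p1 ∈ g) {x y : V}
    (hx : x ∈ A) (hxg : x ∉ g) (hy : y ∈ bl B p1 x) (hyp : y ≠ p1) (hxy : x ≠ y) :
    ∃ k C, IsK B A p1 k ∧ (∀ z ∈ g, k z = z) ∧ k x = y ∧ Pla B q C ∧ C ⊆ S ∧ p1 ∈ C ∧
      p2 ∉ C ∧ p3 ∉ C ∧ pj B p2 C x ∈ bl B p3 y ∧ ∀ t ∈ A, k t = pj B p3 A (pj B p2 C t) := by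
  have H := F.H
  have hxp : x ≠ p1 := fun e => hxg (e ▸ pg)
  obtain ⟨u, uS, u2, u3, up2, up3, uA⟩ := F.pt_u hx hxp hy hyp hxy
  have hyA : y ∈ A := F.PA.cl p1 F.pA x hx hxp.symm hy
  have a2 : p2 ≠ x := fun e => F.n2 (e ▸ hx)
  have a3 : p3 ≠ y := fun e => F.n3 (e ▸ hyA)
  obtain ⟨v, hv, hvp⟩ := H.two_pts hg p1
  have uv : u ≠ v := fun e => uA (e ▸ hgA hv)
  have eg : bl B p1 v = g := H.bl_eq hvp.symm hg pg hv
  have n1 : p1 ∉ bl B u v := by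
    intro hcon
    apply uA
    have : bl B p1 v = bl B u v := bl_of H uv hcon (H.b2 uv) hvp.symm
    rw [eg] at this
    exact hgA (this ▸ H.b1 uv)
  have PC := pla_pl H F.v1 (H.bB uv) n1
  set C := pl B p1 (bl B u v) with hC
  have pC : p1 ∈ C := H.p_mem (H.bB uv) n1
  have lC : bl B u v ⊆ C := H.L_sub n1
  have uC : u ∈ C := lC (H.b1 uv)
  have gC : g ⊆ C := by rw [← eg]; exact PC.cl p1 pC v (lC (H.b2 uv)) hvp.symm
  have CS : C ⊆ S := by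
    intro t ht
    rw [hC] at ht
    unfold pl at ht
    rw [mem_biUnion] at ht
    obtain ⟨w, hw, htw⟩ := ht
    have p1w : p1 ≠ w := fun e => n1 (e ▸ hw)
    exact F.T.cl p1 (F.AS F.pA) w (F.T.cl u uS v (F.AS (hgA hv)) uv hw) p1w htw
  have m2 : p2 ∉ C := by
    intro hcon
    have hxC : x ∈ C := by
      have := PC.cl p2 hcon u uC up2.symm
      rw [bl_of H a2 (H.b1 a2) u2 up2.symm] at this
      exact this (H.b2 a2)
    apply uA
    rw [F.PA.uniq H PC hx hxC hg hgA gC hxg]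
    exact uC
  have m3 : p3 ∉ C := by
    intro hcon
    apply m2
    have := PC.cl p1 pC p3 hcon F.h13
    rw [bl_of H F.h23 F.hc (H.b2 F.h23) F.h13] at this
    exact this (H.b1 F.h23)
  obtain ⟨k, hk, hkf⟩ := mkK H F.T F.v2 F.v3 F.s2 F.s3 F.h23 F.PA F.AS F.n2 F.n3 PC CS m2 m3
    F.pA F.hc
  have pu : pj B p2 C x = u := pj_uniq H F.T F.s2 PC CS m2 (F.AS hx) a2.symm uC u2
  refine ⟨k, C, hk, ?_, ?_, PC, CS, pC, m2, m3, ?_, hkf⟩
  · intro z hz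
    have b2 : p2 ≠ z := fun e => F.n2 (e ▸ hgA hz)
    have b3 : p3 ≠ z := fun e => F.n3 (e ▸ hgA hz)
    rw [hkf z (hgA hz), pj_uniq H F.T F.s2 PC CS m2 (F.AS (hgA hz)) b2.symm (gC hz) (H.b2 b2)]
    exact pj_uniq H F.T F.s3 F.PA F.AS F.n3 (CS (gC hz)) b3.symm (hgA hz) (H.b2 b3)
  · rw [hkf x hx, pu]
    refine pj_uniq H F.T F.s3 F.PA F.AS F.n3 (CS uC) up3 hyA ?_
    rw [bl_of H a3 (H.b1 a3) u3 up3.symm]
    exact H.b2 a3
  · rw [pu]; exact u3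

/-- the elations with axis `g` -/
def Cfg.TG (g : Finset V) : Subgroup (Equiv.Perm V) where
  carrier := {k | IsK B A p1 k ∧ ∀ z ∈ g, k z = z}
  mul_mem' := by
    rintro k l ⟨hk, k1⟩ ⟨hl, l1⟩
    refine ⟨hk.mul F.H F.PA F.pA hl, fun z hz => ?_⟩
    rw [Equiv.Perm.mul_apply, l1 z hz, k1 z hz]
  one_mem' := ⟨IsK.one F.H F.PA F.pA, fun _ _ => rfl⟩
  inv_mem' := by
    rintro k ⟨hk, k1⟩
    refine ⟨hk.inv F.H F.PA F.pA, fun z hz => ?_⟩
    rw [Equiv.Perm.inv_eq_iff_eq, k1 z hz]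

theorem Cfg.mem_TG {g : Finset V} {k : Equiv.Perm V} : k ∈ F.TG g ↔ IsK B A p1 k ∧
    ∀ z ∈ g, k z = z := Iff.rfl

/-- elations act freely off the axis -/
theorem Cfg.free {g : Finset V} (hg : g ∈ B) (hgA : g ⊆ A) (pg : p1 ∈ g) {k l : Equiv.Perm V}
    (hk : k ∈ F.TG g) (hl : l ∈ F.TG g) {x : V} (hx : x ∈ A) (hxg : x ∉ g) (e : k x = l x) :
    k = l := by
  have h1 := (F.TG g).mul_mem ((F.TG g).inv_mem hk) hl
  have h2 : (k⁻¹ * l) x = x := by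
    rw [Equiv.Perm.mul_apply, ← e]
    exact k.symm_apply_apply x
  have := (F.mem_TG.1 h1).1.eq_one F.H F.PA F.pA hg hgA (F.mem_TG.1 h1).2 hx hxg
    (fun e => hxg (e ▸ pg)) h2
  exact (inv_mul_eq_one.1 this)

/-- two elations with different axes that agree in one point of a third block agree on it -/
theorem Cfg.agree {g h m : Finset V} (hg : g ∈ B) (hgA : g ⊆ A) (pg : p1 ∈ g) (hh : h ∈ B)
    (hhA : h ⊆ A) (ph : p1 ∈ h) (hm : m ∈ B) (hmA : m ⊆ A) (pm : p1 ∈ m) (mg : m ≠ g)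
    (mh : m ≠ h) {k l : Equiv.Perm V} (hk : k ∈ F.TG g) (hl : l ∈ F.TG h) {x : V} (hx : x ∈ m)
    (hxp : x ≠ p1) (e : k x = l x) (hne : k x ≠ x) {t : V} (ht : t ∈ m) : k t = l t := by
  have H := F.H
  have em : bl B p1 x = m := H.bl_eq hxp.symm hm pm hx
  have xg : x ∉ g := fun hc => hxp (H.pt hm hg mg hx hc pm pg)
  have xh : x ∉ h := fun hc => hxp (H.pt hm hh mh hx hc pm ph)
  set y := k x with hy
  have hym : y ∈ bl B p1 x := (F.mem_TG.1 hk).1.ray x (hmA hx) hxp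
  have hyp : y ≠ p1 := fun e => hxp (k.injective (e.trans (F.mem_TG.1 hk).1.ctr.symm))
  obtain ⟨k0, C, k1, k2, k3, PC, CS, pC, m2, m3, k4, k5⟩ := F.ex hg hgA pg (hmA hx) xg hym hyp
    hne.symm
  obtain ⟨l0, D, l1, l2, l3, PD, DS, pD, d2, d3, l4, l5⟩ := F.ex hh hhA ph (hmA hx) xh hym hyp
    hne.symm
  have ek : k = k0 := F.free hg hgA pg hk (F.mem_TG.2 ⟨k1, k2⟩) (hmA hx) xg (k3.symm ▸ rfl)
  have el : l = l0 := F.free hh hhA ph hl (F.mem_TG.2 ⟨l1, l2⟩) (hmA hx) xh (by rw [l3, ← e])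
  by_cases htp : t = p1
  · rw [htp, (F.mem_TG.1 hk).1.ctr, (F.mem_TG.1 hl).1.ctr]
  rw [ek, el, k5 t (hmA ht), l5 t (hmA ht)]
  congr 1
  have a2 : p2 ≠ x := fun e => F.n2 (e ▸ hmA hx)
  have sx := pj_spec H F.T F.s2 PC CS m2 (F.AS (hmA hx)) a2.symm
  have sx' := pj_spec H F.T F.s2 PD DS d2 (F.AS (hmA hx)) a2.symm
  set u := pj B p2 C x
  set u' := pj B p2 D x
  have yA : y ∈ A := hmA (em ▸ hym)
  have a3 : p3 ≠ y := fun e => F.n3 (e ▸ yA)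
  have huu : u = u' := by
    refine H.pt (H.bB a2) (H.bB a3) ?_ sx.2 k4 sx'.2 l4
    intro e1
    exact hne (one_pt H F.PA.cl (H.bB a2) F.n2 (H.b1 a2) yA (hmA hx) (e1 ▸ H.b2 a3) (H.b2 a2))
  have n2m : p2 ∉ m := fun h => F.n2 (hmA h)
  have QΩ := pla_pl H F.v2 hm n2m
  have mΩ : m ⊆ pl B p2 m := H.L_sub n2m
  have o2 : p2 ∈ pl B p2 m := H.p_mem hm n2m
  have uΩ : u ∈ pl B p2 m := QΩ.cl p2 o2 x (mΩ hx) a2 sx.2
  have up1 : p1 ≠ u := by
    intro e1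
    have h1 : p1 ∈ bl B p2 x := e1 ▸ sx.2
    exact hxp (one_pt H F.PA.cl (H.bB a2) F.n2 (H.b1 a2) (hmA hx) F.pA (H.b2 a2) h1)
  have b2 : p2 ≠ t := fun e => F.n2 (e ▸ hmA ht)
  obtain ⟨w, hw, hw'⟩ := QΩ.meet H (H.bB up1) (H.bB b2) (QΩ.cl p1 (mΩ pm) u uΩ up1)
    (QΩ.cl p2 o2 t (mΩ ht) b2)
  have wC : w ∈ C := PC.cl p1 pC u sx.1 up1 hw
  have wD : w ∈ D := PD.cl p1 pD u (huu ▸ sx'.1) up1 hw
  rw [pj_uniq H F.T F.s2 PC CS m2 (F.AS (hmA ht)) b2.symm wC hw',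
    pj_uniq H F.T F.s2 PD DS d2 (F.AS (hmA ht)) b2.symm wD hw']

/-- elations with different axes commute -/
theorem Cfg.comm {g h : Finset V} (hg : g ∈ B) (hgA : g ⊆ A) (pg : p1 ∈ g) (hh : h ∈ B)
    (hhA : h ⊆ A) (ph : p1 ∈ h) (gh : g ≠ h) {a b : Equiv.Perm V} (ha : a ∈ F.TG g)
    (hb : b ∈ F.TG h) : a * b = b * a := by
  have H := F.H
  -- an element of the group maps a block through `p1` onto itself
  have norm : ∀ {g : Finset V}, g ∈ B → g ⊆ A → p1 ∈ g → ∀ {a b : Equiv.Perm V},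
      a ∈ F.TG g → IsK B A p1 b → b * a * b⁻¹ ∈ F.TG g := by
    intro g hg hgA pg a b ha hb
    have hbi := hb.inv H F.PA F.pA
    refine F.mem_TG.2 ⟨(hb.mul H F.PA F.pA (F.mem_TG.1 ha).1).mul H F.PA F.pA hbi, ?_⟩
    intro z hz
    have h1 : b⁻¹ z ∈ g := by
      by_cases hzp : z = p1
      · rw [hzp, hbi.ctr]; exact pg
      · have := hbi.ray z (hgA hz) hzp
        rwa [H.bl_eq (Ne.symm hzp) hg pg hz] at this
    rw [Equiv.Perm.mul_apply, Equiv.Perm.mul_apply, (F.mem_TG.1 ha).2 _ h1]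
    exact b.apply_symm_apply z
  have n1 := norm hg hgA pg ((F.TG g).inv_mem ha) (F.mem_TG.1 hb).1
  have n2 := norm hh hhA ph hb (F.mem_TG.1 ha).1
  have h1 : a * b * a⁻¹ * b⁻¹ ∈ F.TG g := by
    have : a * b * a⁻¹ * b⁻¹ = a * (b * a⁻¹ * b⁻¹) := by group
    rw [this]
    exact (F.TG g).mul_mem ha n1
  have h2 : a * b * a⁻¹ * b⁻¹ ∈ F.TG h := (F.TG h).mul_mem n2 ((F.TG h).inv_mem hb)
  obtain ⟨z, hz, hzp⟩ := H.two_pts hh p1
  have hzg : z ∉ g := fun hc => hzp (H.pt hh hg gh.symm hz hc ph pg)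
  have h3 := F.free hg hgA pg h1 (F.TG g).one_mem (hhA hz) hzg (by
    rw [(F.mem_TG.1 h2).2 z hz]; rfl)
  have h4 : a * b * (b * a)⁻¹ = 1 := by
    rw [← h3]; group
  exact mul_inv_eq_one.1 h4

theorem Cfg.main (g h : Finset V) (hg : g ∈ B) (hgA : g ⊆ A) (pg : p1 ∈ g) (hh : h ∈ B)
    (hhA : h ⊆ A) (ph : p1 ∈ h) (gh : g ≠ h) {n : ℕ} {a b : Equiv.Perm V} (ha : a ∈ F.TG g)
    (hb : b ∈ F.TG h) (ha1 : a ≠ 1) (han : a ^ n = 1) : b ^ n = 1 := by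
  have H := F.H
  by_cases hb1 : b = 1
  · rw [hb1, one_pow]
  have ka := (F.mem_TG.1 ha).1
  have kb := (F.mem_TG.1 hb).1
  obtain ⟨y, hy, hyp⟩ := H.two_pts hg p1
  obtain ⟨z, hz, hzp⟩ := H.two_pts hh p1
  have yh : y ∉ h := fun hc => hyp (H.pt hg hh gh hy hc pg ph)
  have zg : z ∉ g := fun hc => hzp (H.pt hh hg gh.symm hz hc ph pg)
  have hai := (F.TG g).inv_mem ha
  have kai := (F.mem_TG.1 hai).1
  set y' := b y with hy'
  set z' := a⁻¹ z with hz'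
  have hyy : y' ≠ y := by
    intro e
    exact hb1 (F.free hh hhA ph hb (F.TG h).one_mem (hgA hy) yh e)
  have hzz : z' ≠ z := by
    intro e
    have := F.free hg hgA pg hai (F.TG g).one_mem (hhA hz) zg e
    exact ha1 (inv_eq_one.1 this)
  have y'g : y' ∈ g := by
    have := kb.ray y (hgA hy) hyp
    rwa [H.bl_eq hyp.symm hg pg hy] at this
  have z'h : z' ∈ h := by
    have := kai.ray z (hhA hz) hzp
    rwa [H.bl_eq hzp.symm hh ph hz] at this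
  have y'p : y' ≠ p1 := fun e => hyp (b.injective (e.trans kb.ctr.symm))
  have z'p : z' ≠ p1 := fun e => hzp (a⁻¹.injective (e.trans kai.ctr.symm))
  have ne : ∀ {s t : V}, s ∈ g → t ∈ h → s ≠ p1 → s ≠ t := by
    intro s t hs ht hsp e
    exact hsp (H.pt hg hh gh hs (e ▸ ht) pg ph)
  have cn : ∀ {s t : V} (hs : s ∈ g) (ht : t ∈ h) (hsp : s ≠ p1), t ≠ p1 → p1 ∉ bl B s t := by
    intro s t hs ht hsp htp hc
    have hst := ne hs ht hsp
    have e1 : bl B p1 s = bl B s t := bl_of H hst hc (H.b1 hst) hsp.symm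
    have e2 : bl B p1 s = g := H.bl_eq hsp.symm hg pg hs
    have : t ∈ g := by rw [← e2, e1]; exact H.b2 hst
    exact htp (H.pt hh hg gh.symm ht this ph pg)
  have n1 : y' ≠ z := ne y'g hz y'p
  have n2 : y ≠ z' := ne hy z'h hyp
  have n3 : y ≠ z := ne hy hz hyp
  have cn1 := cn y'g hz y'p hzp
  have cn2 := cn hy z'h hyp z'p
  have cn3 := cn hy hz hyp hzp
  have sub : ∀ {s t : V}, s ∈ g → t ∈ h → s ≠ t → bl B s t ⊆ A := fun hs ht hst =>
    F.PA.cl _ (hgA hs) _ (hhA ht) hst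
  obtain ⟨w, hw1, hw2⟩ := F.PA.meet H (H.bB n1) (H.bB n2) (sub y'g hz n1) (sub hy z'h n2)
  have wA : w ∈ A := sub y'g hz n1 hw1
  have wp : p1 ≠ w := fun e => cn1 (e ▸ hw1)
  have mA : bl B p1 w ⊆ A := F.PA.cl p1 F.pA w wA wp
  obtain ⟨x, hx, hx'⟩ := F.PA.meet H (H.bB wp) (H.bB n3) mA (sub hy hz n3)
  have xp : x ≠ p1 := fun e => cn3 (e ▸ hx')
  have ex : bl B p1 x = bl B p1 w := bl_of H wp (H.b1 wp) hx xp.symm
  -- `b x = w`
  have bx : b x = w := by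
    have h1 := kb.col y (hgA hy) z (hhA hz) n3 x hx'
    rw [(F.mem_TG.1 hb).2 z hz] at h1
    have h2 := kb.ray x (mA hx) xp
    rw [ex] at h2
    refine H.pt (H.bB wp) (H.bB n1) ?_ h2 h1 (H.b2 wp) hw1
    intro e
    exact cn1 (e ▸ H.b1 wp)
  have ax : a⁻¹ x = w := by
    have h1 := kai.col y (hgA hy) z (hhA hz) n3 x hx'
    rw [(F.mem_TG.1 hai).2 y hy] at h1
    have h2 := kai.ray x (mA hx) xp
    rw [ex] at h2
    refine H.pt (H.bB wp) (H.bB n2) ?_ h2 h1 (H.b2 wp) hw2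
    intro e
    exact cn2 (e ▸ H.b1 wp)
  have wg : w ∉ g := by
    intro hc
    have e1 : w = y' := by
      refine H.pt hg (H.bB n1) ?_ hc hw1 y'g (H.b1 n1)
      intro e; exact cn1 (e ▸ pg)
    have e2 : w = y := by
      refine H.pt hg (H.bB n2) ?_ hc hw2 hy (H.b1 n2)
      intro e; exact cn2 (e ▸ pg)
    exact hyy (e1.symm.trans e2)
  have wh : w ∉ h := by
    intro hc
    have e1 : w = z := by
      refine H.pt hh (H.bB n1) ?_ hc hw1 hz (H.b2 n1)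
      intro e; exact cn1 (e ▸ ph)
    have e2 : w = z' := by
      refine H.pt hh (H.bB n2) ?_ hc hw2 z'h (H.b2 n2)
      intro e; exact cn2 (e ▸ ph)
    exact hzz (e2.symm.trans e1)
  have mg : bl B p1 w ≠ g := fun e => wg (e ▸ H.b2 wp)
  have mh : bl B p1 w ≠ h := fun e => wh (e ▸ H.b2 wp)
  have xw : w ≠ x := by
    intro e
    rw [← e] at bx
    exact hb1 (F.free hh hhA ph hb (F.TG h).one_mem wA wh bx)
  have agr : ∀ t ∈ bl B p1 w, b t = a⁻¹ t := fun t ht =>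
    F.agree hh hhA ph hg hgA pg (H.bB wp) mA (H.b1 wp) mh mg hb hai hx xp (bx.trans ax.symm)
      (by rw [bx]; exact xw) ht
  -- the product is an elation with the axis `bl B p1 w`
  have hab : a * b ∈ F.TG (bl B p1 w) := by
    refine F.mem_TG.2 ⟨ka.mul H F.PA F.pA kb, fun t ht => ?_⟩
    rw [Equiv.Perm.mul_apply, agr t ht]
    exact a.apply_symm_apply t
  have h5 : (a * b) ^ n = b ^ n := by
    have hc : Commute a b := F.comm hg hgA pg hh hhA ph gh ha hb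
    rw [hc.mul_pow, han, one_mul]
  have h6 : b ^ n ∈ F.TG (bl B p1 w) := by
    rw [← h5]
    exact (F.TG _).pow_mem hab n
  have h7 : b ^ n ∈ F.TG h := (F.TG _).pow_mem hb n
  exact F.free hh hhA ph h7 (F.TG h).one_mem wA wh ((F.mem_TG.1 h6).2 w (H.b2 wp))

theorem Cfg.card_TG {g : Finset V} (hg : g ∈ B) (hgA : g ⊆ A) (pg : p1 ∈ g) :
    Nat.card (F.TG g) = q := by
  classical
  have H := F.H
  obtain ⟨x, hx, hxg⟩ : ∃ x ∈ A, x ∉ g := by
    by_contra hcon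
    push Not at hcon
    have h1 := card_le_card (show A ⊆ g from hcon)
    rw [F.PA.card, H.size _ hg] at h1
    have := H.hq
    nlinarith
  have hxp : p1 ≠ x := fun e => hxg (e ▸ pg)
  have hm : ((bl B p1 x).erase p1).card = q := by
    rw [card_erase_of_mem (H.b1 hxp), H.size _ (H.bB hxp)]; rfl
  have hb : Function.Bijective (fun k : F.TG g => (⟨(k : Equiv.Perm V) x, by
      rw [mem_erase]
      have hk := (F.mem_TG.1 k.2).1
      exact ⟨fun e => hxp.symm ((k : Equiv.Perm V).injective (e.trans hk.ctr.symm)),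
        hk.ray x hx hxp.symm⟩⟩ : {y // y ∈ (bl B p1 x).erase p1})) := by
    constructor
    · rintro ⟨k, hk⟩ ⟨l, hl⟩ e
      have e' : k x = l x := congrArg Subtype.val e
      exact Subtype.ext (F.free hg hgA pg hk hl hx hxg e')
    · rintro ⟨y, hy⟩
      rw [mem_erase] at hy
      by_cases hxy : x = y
      · exact ⟨⟨1, (F.TG g).one_mem⟩, Subtype.ext hxy⟩
      · obtain ⟨k, C, k1, k2, k3, _⟩ := F.ex hg hgA pg hx hxg hy.2 hy.1 hxy
        exact ⟨⟨k, F.mem_TG.2 ⟨k1, k2⟩⟩, Subtype.ext k3⟩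
  rw [Nat.card_eq_of_bijective _ hb, Nat.card_eq_fintype_card, Fintype.card_coe, hm]

theorem Cfg.primePow : IsPrimePow q := by
  classical
  have H := F.H
  have hq2 := H.hq
  -- two blocks of `A` through `p1`
  obtain ⟨x, hx, hxp⟩ : ∃ x ∈ A, x ≠ p1 := by
    by_contra hcon
    push Not at hcon
    have h1 := card_le_card (show A ⊆ {p1} from fun x hx => mem_singleton.2 (hcon x hx))
    rw [F.PA.card, card_singleton] at h1
    nlinarith
  obtain ⟨y, hy, hyg⟩ : ∃ y ∈ A, y ∉ bl B p1 x := by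
    by_contra hcon
    push Not at hcon
    have h1 := card_le_card (show A ⊆ bl B p1 x from hcon)
    rw [F.PA.card, H.size _ (H.bB hxp.symm)] at h1
    nlinarith
  have hyp : p1 ≠ y := fun e => hyg (e ▸ H.b1 hxp.symm)
  set g := bl B p1 x with hg
  set h := bl B p1 y with hh
  have gB : g ∈ B := H.bB hxp.symm
  have hB : h ∈ B := H.bB hyp
  have gA : g ⊆ A := F.PA.cl p1 F.pA x hx hxp.symm
  have hA : h ⊆ A := F.PA.cl p1 F.pA y hy hyp
  have pg : p1 ∈ g := H.b1 hxp.symm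
  have ph : p1 ∈ h := H.b1 hyp
  have gh : g ≠ h := fun e => hyg (e ▸ H.b2 hyp)
  obtain ⟨r, hr, hrq⟩ := Nat.exists_prime_and_dvd (show q ≠ 1 by omega)
  have : Fact r.Prime := ⟨hr⟩
  have hdvd : r ∣ Nat.card (F.TG g) := by rw [F.card_TG gB gA pg]; exact hrq
  obtain ⟨⟨a, ha⟩, hao⟩ := exists_prime_orderOf_dvd_card' r hdvd
  have har : a ^ r = 1 := by
    have h1 : (⟨a, ha⟩ : F.TG g) ^ r = 1 := by rw [← hao]; exact pow_orderOf_eq_one _
    have := congrArg Subtype.val h1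
    simpa using this
  have ha1 : a ≠ 1 := by
    intro e
    have : (⟨a, ha⟩ : F.TG g) = 1 := Subtype.ext e
    rw [this, orderOf_one] at hao
    exact hr.one_lt.ne hao
  have hP : IsPGroup r (F.TG h) := by
    rintro ⟨b, hb⟩
    refine ⟨1, ?_⟩
    rw [pow_one]
    have := F.main g h gB gA pg hB hA ph gh ha hb ha1 har
    exact Subtype.ext (by simpa using this)
  obtain ⟨k, hk⟩ := IsPGroup.iff_card.1 hP
  rw [F.card_TG hB hA ph] at hk
  rw [hk]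
  have hk0 : k ≠ 0 := by
    rintro rfl
    rw [pow_zero] at hk
    omega
  exact hr.isPrimePow.pow hk0

end

theorem collin (H : LS B q) {p1 p2 p3 : V} (v1 : Veblen B p1) (v2 : Veblen B p2)
    (v3 : Veblen B p3) (h12 : p1 ≠ p2) (h13 : p1 ≠ p3) (h23 : p2 ≠ p3) (hc : p1 ∈ bl B p2 p3)
    (hn : (q + 1) * q + 1 < Fintype.card V) : IsPrimePow q := by
  classical
  have hq2 := H.hq
  obtain ⟨y, hy⟩ := exists_out (S := bl B p1 p2) (by
    rw [H.size _ (H.bB h12)]; nlinarith)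
  have hp1y : p1 ≠ y := fun e => hy (e ▸ H.b1 h12)
  have n2 : p2 ∉ bl B p1 y := by
    intro hcon
    apply hy
    rw [bl_of H hp1y (H.b1 hp1y) hcon h12]
    exact H.b2 hp1y
  have Q0 := pla_pl H v2 (H.bB hp1y) n2
  set Ω := pl B p2 (bl B p1 y) with hΩ
  obtain ⟨z, hz⟩ := exists_out (S := Ω) (by rw [Q0.card]; exact hn)
  have gΩ : bl B p1 y ⊆ Ω := H.L_sub n2
  have yΩ : y ∈ Ω := gΩ (H.b2 hp1y)
  have o2 : p2 ∈ Ω := H.p_mem (H.bB hp1y) n2
  have hyz : y ≠ z := fun e => hz (e ▸ yΩ)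
  have n1 : p1 ∉ bl B y z := by
    intro hcon
    apply hz
    apply gΩ
    rw [bl_of H hyz hcon (H.b1 hyz) hp1y]
    exact H.b2 hyz
  have PA := pla_pl H v1 (H.bB hyz) n1
  set A := pl B p1 (bl B y z) with hA
  have mA : bl B y z ⊆ A := H.L_sub n1
  have pA : p1 ∈ A := H.p_mem (H.bB hyz) n1
  have gA : bl B p1 y ⊆ A := PA.cl p1 pA y (mA (H.b1 hyz)) hp1y
  have a2 : p2 ∉ A := by
    intro hcon
    apply hz
    rw [← PA.uniq H Q0 hcon o2 (H.bB hp1y) gA gΩ n2]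
    exact mA (H.b2 hyz)
  have e13 : bl B p1 p3 = bl B p2 p3 := bl_of H h23 hc (H.b2 h23) h13
  have e12 : bl B p2 p1 = bl B p2 p3 := bl_of H h23 (H.b1 h23) hc h12.symm
  have a3 : p3 ∉ A := by
    intro hcon
    apply a2
    have := PA.cl p1 pA p3 hcon h13
    rw [e13] at this
    exact this (H.b1 h23)
  have T := spc_cone H v2 PA a2
  have AS : A ⊆ pl B p2 A := H.L_sub a2
  have s2 : p2 ∈ pl B p2 A := vertex_mem H PA a2
  have s3 : p3 ∈ pl B p2 A := by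
    have := T.cl p2 s2 p1 (AS pA) h12.symm
    rw [e12] at this
    exact this (H.b2 h23)
  exact (Cfg.mk H v1 v2 v3 h12 h13 h23 hc PA T pA AS a2 a3 s2 s3).primePow

/-- three Veblen points -/
theorem three (H : LS B q) {p1 p2 p3 : V} (v1 : Veblen B p1) (v2 : Veblen B p2)
    (v3 : Veblen B p3) (h12 : p1 ≠ p2) (h13 : p1 ≠ p3) (h23 : p2 ≠ p3)
    (hn : (q + 1) * q + 1 < Fintype.card V) : IsPrimePow q := by
  by_cases hc : p1 ∈ bl B p2 p3
  · exact collin H v1 v2 v3 h12 h13 h23 hc hn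
  · exact noncol H v1 v2 v3 h23 hc hn

end Pool.Agent.Helper19.V3
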