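import Mathlib
import Pool.Agent.Helper19.V3.Plane

set_option autoImplicit false

/-!
# The lines of the projective spaces over a finite field
-/

namespace Pool.Agent.Helper19.V3

open Finset Pool.Agent.V11100.VB Pool.Agent.Helper19.VS Module
open scoped LinearAlgebra.Projectivization

section
variable {K W : Type} [Field K] [AddCommGroup W] [Module K W] [FiniteDimensional K W]

theorem rank_sup {x y : ℙ K W} (h : x ≠ y) :
    finrank K (x.submodule ⊔ y.submodule : Submodule K W) = 2 := by
  have h1 := Submodule.finrank_sup_add_finrank_inf_eq x.submodule y.submodule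
  rw [x.finrank_submodule, y.finrank_submodule] at h1
  have h2 : finrank K (x.submodule ⊓ y.submodule : Submodule K W) = 0 := by
    by_contra hc
    have h3 : finrank K (x.submodule ⊓ y.submodule : Submodule K W) ≤ 1 := by
      rw [← x.finrank_submodule]
      exact Submodule.finrank_mono inf_le_left
    have h4 : finrank K (x.submodule ⊓ y.submodule : Submodule K W) = 1 := by omega
    have e1 : x.submodule ⊓ y.submodule = x.submodule :=
      Submodule.eq_of_le_of_finrank_eq inf_le_left (by rw [h4, x.finrank_submodule])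
    have e2 : x.submodule ⊓ y.submodule = y.submodule :=
      Submodule.eq_of_le_of_finrank_eq inf_le_right (by rw [h4, y.finrank_submodule])
    exact h (Projectivization.submodule_injective (e1.symm.trans e2))
  omega

theorem line_eq {x y : ℙ K W} (h : x ≠ y) {S : Submodule K W} (hS : finrank K S = 2)
    (hx : x.submodule ≤ S) (hy : y.submodule ≤ S) : S = x.submodule ⊔ y.submodule :=
  (Submodule.eq_of_le_of_finrank_eq (sup_le hx hy) (by rw [hS, rank_sup h])).symm

theorem exists_pt {S : Submodule K W} (hS : finrank K S ≠ 0) : ∃ x : ℙ K W, x.submodule ≤ S := by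
  have : S ≠ ⊥ := by
    rintro rfl
    exact hS (finrank_bot K W)
  obtain ⟨v, hv, hv0⟩ := Submodule.exists_mem_ne_zero_of_ne_bot this
  refine ⟨Projectivization.mk K v hv0, ?_⟩
  rw [Projectivization.submodule_mk, Submodule.span_singleton_le_iff_mem]
  exact hv

theorem card_line [Finite K] [Fintype (ℙ K W)] {S : Submodule K W} (hS : finrank K S = 2)
    {b : Finset (ℙ K W)} (hb : ∀ x, x ∈ b ↔ x.submodule ≤ S) : b.card = Nat.card K + 1 := by
  classical
  have hF : Finite W := Module.finite_of_finite K
  have hF2 : Finite (ℙ K S) := (Projectivization.finite_iff_of_finite K S).2 inferInstance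
  have : Fintype (ℙ K S) := Fintype.ofFinite _
  have hinj : Function.Injective S.subtype := S.injective_subtype
  have e : b = univ.image (Projectivization.map S.subtype hinj) := by
    ext x
    rw [hb, mem_image]
    constructor
    · induction x using Projectivization.ind with
      | h v hv =>
        intro h
        rw [Projectivization.submodule_mk, Submodule.span_singleton_le_iff_mem] at h
        exact ⟨Projectivization.mk K ⟨v, h⟩ (fun e => hv (congrArg Subtype.val e)), mem_univ _, rfl⟩
    · rintro ⟨y, -, rfl⟩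
      induction y using Projectivization.ind with
      | h v hv =>
        rw [Projectivization.map_mk, Projectivization.submodule_mk,
          Submodule.span_singleton_le_iff_mem]
        exact v.2
  rw [e, card_image_of_injective _ (Projectivization.map_injective _ hinj), card_univ,
    ← Nat.card_eq_fintype_card, Projectivization.card_of_finrank_two K S hS]

open Classical in
/-- the lines -/
noncomputable def pgB (K W : Type) [Field K] [AddCommGroup W] [Module K W] [Fintype (ℙ K W)] :
    Finset (Finset (ℙ K W)) :=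
  univ.filter fun b => ∃ S : Submodule K W, finrank K S = 2 ∧ ∀ x, x ∈ b ↔ x.submodule ≤ S

theorem mem_pgB [Fintype (ℙ K W)] {b : Finset (ℙ K W)} : b ∈ pgB K W ↔
    ∃ S : Submodule K W, finrank K S = 2 ∧ ∀ x, x ∈ b ↔ x.submodule ≤ S := by
  simp [pgB]

theorem pg_LS [Finite K] [Fintype (ℙ K W)] [DecidableEq (ℙ K W)] :
    LS (pgB K W) (Nat.card K) := by
  classical
  refine ⟨?_, ?_, Finite.one_lt_card⟩
  · intro b hb
    obtain ⟨S, hS, h⟩ := mem_pgB.1 hb
    exact card_line hS h
  · intro R hR
    obtain ⟨x, y, hxy, rfl⟩ := card_eq_two.1 hR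
    refine ⟨univ.filter (fun z => z.submodule ≤ x.submodule ⊔ y.submodule),
      ⟨mem_pgB.2 ⟨_, rank_sup hxy, fun z => by simp⟩, ?_⟩, ?_⟩
    · intro z hz
      rw [mem_insert, mem_singleton] at hz
      rw [mem_filter]
      rcases hz with rfl | rfl
      · exact ⟨mem_univ _, le_sup_left⟩
      · exact ⟨mem_univ _, le_sup_right⟩
    · rintro b ⟨hb, hs⟩
      obtain ⟨S, hS, h⟩ := mem_pgB.1 hb
      have e := line_eq hxy hS ((h x).1 (hs (by simp))) ((h y).1 (hs (by simp)))
      subst e
      ext z
      rw [h]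
      simp

theorem pg_veblen [Finite K] [Fintype (ℙ K W)] [DecidableEq (ℙ K W)] (p : ℙ K W) :
    Veblen (pgB K W) p := by
  intro l hl m hm hlm pl pm a al b bl c cm d dm ap bp cp dp g hg h hh ag cg bh dh
  obtain ⟨L, hL, hL'⟩ := mem_pgB.1 hl
  obtain ⟨M, hM, hM'⟩ := mem_pgB.1 hm
  obtain ⟨G, hG, hG'⟩ := mem_pgB.1 hg
  obtain ⟨N, hN, hN'⟩ := mem_pgB.1 hh
  have H : LS (pgB K W) (Nat.card K) := pg_LS
  have hac : a ≠ c := by
    rintro rfl
    exact ap (H.pt hl hm hlm al cm pl pm)
  have hbd : b ≠ d := by
    rintro rfl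
    exact bp (H.pt hl hm hlm bl dm pl pm)
  have h1 : G ≤ L ⊔ M := by
    rw [line_eq hac hG ((hG' _).1 ag) ((hG' _).1 cg)]
    exact sup_le_sup ((hL' _).1 al) ((hM' _).1 cm)
  have h2 : N ≤ L ⊔ M := by
    rw [line_eq hbd hN ((hN' _).1 bh) ((hN' _).1 dh)]
    exact sup_le_sup ((hL' _).1 bl) ((hM' _).1 dm)
  have h3 := Submodule.finrank_sup_add_finrank_inf_eq L M
  have h4 : 1 ≤ finrank K (L ⊓ M : Submodule K W) := by
    rw [← p.finrank_submodule]
    exact Submodule.finrank_mono (le_inf ((hL' _).1 pl) ((hM' _).1 pm))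
  have h5 := Submodule.finrank_sup_add_finrank_inf_eq G N
  have h6 : finrank K (G ⊔ N : Submodule K W) ≤ finrank K (L ⊔ M : Submodule K W) :=
    Submodule.finrank_mono (sup_le h1 h2)
  obtain ⟨w, hw⟩ := exists_pt (S := G ⊓ N) (by omega)
  exact ⟨w, (hG' w).2 (hw.trans inf_le_left), (hN' w).2 (hw.trans inf_le_right)⟩

end

/-- if `q` is a prime power then there are systems with many points in which every point is a
Veblen point -/
theorem exists_pg {q : ℕ} (hq : IsPrimePow q) (k : ℕ) :
    ∃ (W : Type) (_ : Fintype W) (_ : DecidableEq W) (C : Finset (Finset W)), LS C q ∧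
      k ≤ Fintype.card W ∧ q ^ 2 + q + 1 < Fintype.card W ∧ ∀ x : W, Veblen C x := by
  classical
  obtain ⟨p, n, hp, hn, rfl⟩ := hq
  haveI : Fact p.Prime := ⟨hp.nat_prime⟩
  let K := GaloisField p n
  haveI : Finite K := inferInstance
  have hK : Nat.card K = p ^ n := GaloisField.card p n hn.ne'
  let W := Fin (k + 4) → K
  haveI : Finite (ℙ K W) := (Projectivization.finite_iff_of_finite K W).2 inferInstance
  haveI : Fintype (ℙ K W) := Fintype.ofFinite _
  have hc : Fintype.card (ℙ K W) = ∑ i ∈ range (k + 4), (p ^ n) ^ i := by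
    rw [← Nat.card_eq_fintype_card, Projectivization.card_of_finrank K W (n := k + 4) (by simp [W]),
      hK]
  have h1 : 1 ≤ p ^ n := Nat.one_le_pow _ _ hp.nat_prime.pos
  have h2 : ∀ i, 1 ≤ (p ^ n) ^ i := fun i => Nat.one_le_pow _ _ h1
  refine ⟨ℙ K W, inferInstance, inferInstance, pgB K W, ?_, ?_, ?_, fun x => pg_veblen x⟩
  · rw [← hK]
    exact pg_LS
  · rw [hc]
    calc k ≤ ∑ i ∈ range (k + 4), 1 := by simp
      _ ≤ _ := sum_le_sum fun i _ => h2 i
  · rw [hc]
    have h3 : ∑ i ∈ range 4, (p ^ n) ^ i ≤ ∑ i ∈ range (k + 4), (p ^ n) ^ i :=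
      sum_le_sum_of_subset (by intro i; simp only [mem_range]; omega)
    refine lt_of_lt_of_le ?_ h3
    simp only [sum_range_succ, range_zero, sum_empty, pow_zero, pow_one]
    have := h2 3
    omega

end Pool.Agent.Helper19.V3
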