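import Mathlib
import Pool.Agent.Helper19.V3.Plane

set_option autoImplicit false

/-!
# The plane through a Veblen point as a system of its own
-/

namespace Pool.Agent.Helper19.V3

open Finset Pool.Agent.V11100.VB Pool.Agent.Helper19.VS

variable {V : Type} [DecidableEq V] {B : Finset (Finset V)} {q : ℕ}

theorem exists_block_notMem (H : LS B q) [Fintype V] (p : V)
    (hn : (q + 1) * q + 1 < Fintype.card V) : ∃ L ∈ B, p ∉ L := by
  have h1 : 1 < (univ : Finset V).card := by rw [card_univ]; nlinarith [H.hq]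
  obtain ⟨y, -, hy⟩ := exists_mem_ne h1 p
  have h0 : ∃ z, z ∉ bl B p y := by
    by_contra hc
    push Not at hc
    have h1 := card_le_card (fun z _ => hc z : (univ : Finset V) ⊆ bl B p y)
    rw [card_univ, H.size _ (H.bB hy.symm)] at h1
    nlinarith [H.hq]
  obtain ⟨z, hz⟩ := h0
  have hyz : y ≠ z := fun e => hz (e ▸ H.b2 hy.symm)
  refine ⟨bl B y z, H.bB hyz, fun h => ?_⟩
  have e := H.un hy.symm (H.bB hy.symm) (H.bB hyz) (H.b1 hy.symm) (H.b2 hy.symm) h (H.b1 hyz)
  exact hz (e ▸ H.b2 hyz)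

theorem sub_LS (H : LS B q) {S : Finset V} (P : Pla B q S) :
    ∃ C : Finset (Finset S), LS C q := by
  classical
  let f : Finset V → Finset S := fun b => univ.filter fun x => x.1 ∈ b
  have hf : ∀ b, b ⊆ S → (f b).card = b.card := by
    intro b hb
    refine card_bij (fun x _ => x.1) ?_ ?_ ?_
    · intro x hx
      exact (mem_filter.1 hx).2
    · intro x _ y _ h
      exact Subtype.ext h
    · intro x hx
      exact ⟨⟨x, hb hx⟩, mem_filter.2 ⟨mem_univ _, hx⟩, rfl⟩
  refine ⟨(B.filter (fun b => b ⊆ S)).image f, ?_, ?_, H.hq⟩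
  · intro b hb
    obtain ⟨c, hc, rfl⟩ := mem_image.1 hb
    rw [mem_filter] at hc
    rw [hf c hc.2, H.size c hc.1]
  · intro R hR
    obtain ⟨x, y, hxy, rfl⟩ := card_eq_two.1 hR
    have hne : x.1 ≠ y.1 := fun e => hxy (Subtype.ext e)
    refine ⟨f (bl B x.1 y.1), ⟨mem_image.2 ⟨_, mem_filter.2 ⟨H.bB hne,
      P.cl _ x.2 _ y.2 hne⟩, rfl⟩, ?_⟩, ?_⟩
    · intro z hz
      rw [mem_insert, mem_singleton] at hz
      refine mem_filter.2 ⟨mem_univ _, ?_⟩
      rcases hz with rfl | rfl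
      · exact H.b1 hne
      · exact H.b2 hne
    · rintro b ⟨hb, hs⟩
      obtain ⟨c, hc, rfl⟩ := mem_image.1 hb
      rw [mem_filter] at hc
      have hx := (mem_filter.1 (hs (by simp : x ∈ ({x, y} : Finset S)))).2
      have hy := (mem_filter.1 (hs (by simp : y ∈ ({x, y} : Finset S)))).2
      rw [H.bl_eq hne hc.1 hx hy]

end Pool.Agent.Helper19.V3
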